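import Mathlib

set_option autoImplicit false
set_option linter.unusedSectionVars false
set_option linter.style.longLine false

/-!
# Elements of minimal rank in a semigroup of lazy steps
-/

namespace Pool.Agent.H55.MX

open scoped InnerProductSpace

section Geo

variable {V : Type*} [NormedAddCommGroup V] [InnerProductSpace ℝ V] [FiniteDimensional ℝ V]

lemma q1 {c d : ℝ} (h : ∀ e : ℝ, 0 ≤ e → 0 ≤ 2 * e * c + e ^ 2 * d) : 0 ≤ c := by
  by_contra hc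
  push Not at hc
  have hd : 0 < |d| + 1 := by positivity
  have h1 := h (-c / (|d| + 1)) (div_nonneg (by linarith) hd.le)
  set e := -c / (|d| + 1) with he
  have he0 : 0 < e := div_pos (by linarith) hd
  have h2 : e * (|d| + 1) = -c := by rw [he]; field_simp
  have h3 : d ≤ |d| := le_abs_self d
  have h4 : e * d ≤ e * |d| := mul_le_mul_of_nonneg_left h3 he0.le
  have h5 : 2 * c + e * d < 0 := by nlinarith
  have h6 : 2 * e * c + e ^ 2 * d = e * (2 * c + e * d) := by ring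
  rw [h6] at h1
  have := mul_neg_of_pos_of_neg he0 h5
  linarith

lemma first_order (T : V →ₗ[ℝ] V) {y z : V} (hsym : ⟪T z, y⟫_ℝ = ⟪z, T y⟫_ℝ) {m : ℝ}
    (hy : ⟪T y, y⟫_ℝ = m * ‖y‖ ^ 2)
    (h : ∀ e : ℝ, 0 ≤ e → m * ‖y + e • z‖ ^ 2 ≤ ⟪T (y + e • z), y + e • z⟫_ℝ) :
    m * ⟪y, z⟫_ℝ ≤ ⟪T y, z⟫_ℝ := by
  have h1 : 0 ≤ ⟪T y, z⟫_ℝ - m * ⟪y, z⟫_ℝ := by
    refine q1 (d := ⟪T z, z⟫_ℝ - m * ‖z‖ ^ 2) fun e he => ?_
    have h2 := h e he
    have h3 : ‖y + e • z‖ ^ 2 = ‖y‖ ^ 2 + 2 * e * ⟪y, z⟫_ℝ + e ^ 2 * ‖z‖ ^ 2 := by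
      rw [← real_inner_self_eq_norm_sq, ← real_inner_self_eq_norm_sq, ← real_inner_self_eq_norm_sq]
      simp only [inner_add_left, inner_add_right, real_inner_smul_left, real_inner_smul_right]
      rw [real_inner_comm z y]
      ring
    have h4 : ⟪T (y + e • z), y + e • z⟫_ℝ =
        ⟪T y, y⟫_ℝ + 2 * e * ⟪T y, z⟫_ℝ + e ^ 2 * ⟪T z, z⟫_ℝ := by
      rw [map_add, map_smul]
      simp only [inner_add_left, inner_add_right, real_inner_smul_left, real_inner_smul_right]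
      rw [hsym, real_inner_comm (T y) z]
      ring
    rw [h3, h4, hy] at h2
    nlinarith
  linarith

lemma cone_min (K : Set V) (hK : IsClosed K) (hc : ∀ c : ℝ, 0 ≤ c → ∀ y ∈ K, c • y ∈ K)
    (hne : ∃ y ∈ K, y ≠ 0) (T : V →ₗ[ℝ] V) :
    ∃ y ∈ K, ‖y‖ = 1 ∧ ∀ z ∈ K, ⟪T y, y⟫_ℝ * ‖z‖ ^ 2 ≤ ⟪T z, z⟫_ℝ := by
  have hcomp : IsCompact (K ∩ Metric.sphere 0 1) :=
    (isCompact_sphere (0 : V) 1).inter_left hK
  have hnorm : ∀ z ∈ K, z ≠ 0 → (‖z‖⁻¹ • z) ∈ K ∩ Metric.sphere 0 1 := fun z hz hz0 => by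
    refine ⟨hc _ (by positivity) z hz, ?_⟩
    rw [mem_sphere_zero_iff_norm, norm_smul, norm_inv, norm_norm,
      inv_mul_cancel₀ (norm_ne_zero_iff.2 hz0)]
  obtain ⟨x, hx, hx0⟩ := hne
  obtain ⟨y, ⟨hyK, hy1⟩, hmin⟩ := hcomp.exists_isMinOn ⟨_, hnorm x hx hx0⟩
    (f := fun z => ⟪T z, z⟫_ℝ)
    ((T.continuous_of_finiteDimensional.inner continuous_id).continuousOn)
  refine ⟨y, hyK, mem_sphere_zero_iff_norm.1 hy1, fun z hz => ?_⟩
  by_cases hz0 : z = 0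
  · simp [hz0]
  have h1 : ⟪T y, y⟫_ℝ ≤ ⟪T (‖z‖⁻¹ • z), ‖z‖⁻¹ • z⟫_ℝ := hmin (hnorm z hz hz0)
  rw [map_smul, real_inner_smul_left, real_inner_smul_right] at h1
  have hpos : 0 < ‖z‖ := norm_pos_iff.2 hz0
  calc ⟪T y, y⟫_ℝ * ‖z‖ ^ 2 ≤ (‖z‖⁻¹ * (‖z‖⁻¹ * ⟪T z, z⟫_ℝ)) * ‖z‖ ^ 2 :=
        mul_le_mul_of_nonneg_right h1 (by positivity)
    _ = ⟪T z, z⟫_ℝ := by field_simp

/-- A symmetric operator which takes a negative value on `Y` has a critical point with a negative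
critical value. -/
lemma rayleigh (Y : Submodule ℝ V) (T : V →ₗ[ℝ] V)
    (hT : ∀ x ∈ Y, ∀ y ∈ Y, ⟪T x, y⟫_ℝ = ⟪x, T y⟫_ℝ) (h : ∃ y ∈ Y, ⟪T y, y⟫_ℝ < 0) :
    ∃ μ : ℝ, μ < 0 ∧ ∃ y ∈ Y, y ≠ 0 ∧ ∀ z ∈ Y, ⟪T y - μ • y, z⟫_ℝ = 0 := by
  obtain ⟨x, hxY, hx⟩ := h
  have hx0 : x ≠ 0 := by rintro rfl; simp at hx
  obtain ⟨y, hy, hy1, hmin⟩ := cone_min (Y : Set V) Y.closed_of_finiteDimensional
    (fun c _ z hz => Y.smul_mem c hz) ⟨x, hxY, hx0⟩ T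
  have hy0 : y ≠ 0 := by rintro rfl; simp at hy1
  have hm : ⟪T y, y⟫_ℝ < 0 := by
    have h1 := hmin x hxY
    have h2 : 0 < ‖x‖ ^ 2 := by positivity
    by_contra h3
    push Not at h3
    nlinarith
  refine ⟨⟪T y, y⟫_ℝ, hm, y, hy, hy0, fun z hz => ?_⟩
  have h1 : ∀ z ∈ Y, ⟪T y, y⟫_ℝ * ⟪y, z⟫_ℝ ≤ ⟪T y, z⟫_ℝ := fun z hz =>
    first_order T (hT z hz y hy) (by rw [hy1]; ring)
      fun e _ => hmin _ (Y.add_mem hy (Y.smul_mem e hz))
  have h2 := h1 z hz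
  have h3 := h1 (-z) (Y.neg_mem hz)
  rw [inner_neg_right, inner_neg_right] at h3
  rw [inner_sub_left, real_inner_smul_left]
  linarith

end Geo

section Rep

variable {G : Type*} [Group G] {V : Type*} [NormedAddCommGroup V] [InnerProductSpace ℝ V]
  [FiniteDimensional ℝ V]

/-- The lazy step: `1` with probability `1 - p` and `g` with probability `p`. -/
noncomputable def fac (p : ℝ) (g : G) : MonoidAlgebra ℝ G :=
  (1 - p) • 1 + p • MonoidAlgebra.of ℝ G g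

variable (ρ : Representation ℝ G V) (S : Submonoid (MonoidAlgebra ℝ G))



lemma L_mem {U : Submodule ℝ V} (hU : ∀ g, ∀ u ∈ U, ρ g u ∈ U) (a : MonoidAlgebra ℝ G) :
    ∀ u ∈ U, ρ.asAlgebraHom a u ∈ U := by
  induction a using MonoidAlgebra.induction_on with
  | of g => intro u hu; rw [Representation.asAlgebraHom_of]; exact hU g u hu
  | add x y hx hy =>
    intro u hu
    rw [map_add, LinearMap.add_apply]
    exact U.add_mem (hx u hu) (hy u hu)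
  | smul r x hx =>
    intro u hu
    rw [map_smul, LinearMap.smul_apply]
    exact U.smul_mem r (hx u hu)

/-- An element of minimal rank on `U`: its kernel cannot be enlarged. -/
lemma exists_min (U : Submodule ℝ V) : ∃ s ∈ S, ∀ a ∈ S, ∀ u ∈ U, ρ.asAlgebraHom (a * s) u = 0 → ρ.asAlgebraHom s u = 0 := by
  classical
  obtain ⟨s, hs, hmin⟩ : ∃ s ∈ S, ∀ a ∈ S,
      Module.finrank ℝ (U.map (ρ.asAlgebraHom s)) ≤ Module.finrank ℝ (U.map (ρ.asAlgebraHom a)) := by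
    have hne : ∃ n : ℕ, ∃ a ∈ S, Module.finrank ℝ (U.map (ρ.asAlgebraHom a)) = n := ⟨_, 1, S.one_mem, rfl⟩
    obtain ⟨s, hs, h⟩ := Nat.find_spec hne
    exact ⟨s, hs, fun a ha => h ▸ Nat.find_min' hne ⟨a, ha, rfl⟩⟩
  refine ⟨s, hs, fun a ha u hu h0 => ?_⟩
  set f := (ρ.asAlgebraHom s).domRestrict U with hf
  set g := (ρ.asAlgebraHom (a * s)).domRestrict U with hg
  have hle : LinearMap.ker f ≤ LinearMap.ker g := by
    intro x hx
    rw [LinearMap.mem_ker] at hx ⊢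
    have hx' : ρ.asAlgebraHom s (x : V) = 0 := hx
    show ρ.asAlgebraHom (a * s) (x : V) = 0
    rw [map_mul, Module.End.mul_apply, hx', map_zero]
  have hrf : Module.finrank ℝ (LinearMap.range f) ≤ Module.finrank ℝ (LinearMap.range g) := by
    rw [hf, hg, LinearMap.range_domRestrict, LinearMap.range_domRestrict]
    exact hmin _ (S.mul_mem ha hs)
  have h1 := LinearMap.finrank_range_add_finrank_ker f
  have h2 := LinearMap.finrank_range_add_finrank_ker g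
  have heq : LinearMap.ker f = LinearMap.ker g :=
    Submodule.eq_of_le_of_finrank_le hle (by omega)
  have h3 : (⟨u, hu⟩ : U) ∈ LinearMap.ker g := h0
  rw [← heq] at h3
  exact h3

/-- The semigroup is closed under adjoints. -/
def Adj : Prop := ∀ a ∈ S, ∃ b ∈ S, ∀ x y : V, ⟪ρ.asAlgebraHom a x, y⟫_ℝ = ⟪x, ρ.asAlgebraHom b y⟫_ℝ

variable {ρ S}

/-- If the kernel of `s` on `U` cannot be enlarged then symmetric steps are nonnegative on the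
orbit of the range of `s`. -/
lemma psd (hadj : Adj ρ S) {U : Submodule ℝ V} (hU : ∀ g, ∀ u ∈ U, ρ g u ∈ U)
    {s : MonoidAlgebra ℝ G} (hs : s ∈ S) (hmin : ∀ a ∈ S, ∀ u ∈ U, ρ.asAlgebraHom (a * s) u = 0 → ρ.asAlgebraHom s u = 0)
    {τ : MonoidAlgebra ℝ G} (hτ : ∀ x ∈ U, ∀ y ∈ U, ⟪ρ.asAlgebraHom τ x, y⟫_ℝ = ⟪x, ρ.asAlgebraHom τ y⟫_ℝ)
    (hstep : ∀ p : ℝ, 0 ≤ p → p ≤ 1 → (1 - p) • (1 : MonoidAlgebra ℝ G) + p • τ ∈ S)
    {a : MonoidAlgebra ℝ G} (ha : a ∈ S) {u : V} (hu : u ∈ U) :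
    0 ≤ ⟪ρ.asAlgebraHom τ (ρ.asAlgebraHom (a * s) u), ρ.asAlgebraHom (a * s) u⟫_ℝ := by
  by_contra hneg
  push Not at hneg
  set Y := U.map (ρ.asAlgebraHom (a * s)) with hY
  have hYU : ∀ y ∈ Y, y ∈ U := by
    rintro y ⟨x, hx, rfl⟩
    exact L_mem ρ hU _ _ hx
  obtain ⟨μ, hμ, y, hy, hy0, hort⟩ := rayleigh Y (ρ.asAlgebraHom τ)
    (fun x hx y hy => hτ x (hYU x hx) y (hYU y hy)) ⟨_, ⟨u, hu, rfl⟩, hneg⟩
  obtain ⟨u₀, hu₀, rfl⟩ := hy
  obtain ⟨b, hb, hbadj⟩ := hadj (a * s) (S.mul_mem ha hs)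
  set p : ℝ := 1 / (1 - μ) with hp
  have h1μ : 0 < 1 - μ := by linarith
  have hp0 : 0 ≤ p := by positivity
  have hp1 : p ≤ 1 := by rw [hp, div_le_one h1μ]; linarith
  have hst := hstep p hp0 hp1
  set σ := (1 - p) • (1 : MonoidAlgebra ℝ G) + p • τ with hσ
  set y := ρ.asAlgebraHom (a * s) u₀ with hyd
  have hσy : ρ.asAlgebraHom σ y = p • (ρ.asAlgebraHom τ y - μ • y) := by
    have e : 1 - p = -(p * μ) := by
      rw [hp]; field_simp; ring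
    rw [hσ, map_add, map_smul, map_smul, map_one, LinearMap.add_apply, LinearMap.smul_apply,
      LinearMap.smul_apply, Module.End.one_apply, e, smul_sub, smul_smul]
    module
  have hz : ∀ x ∈ U, ⟪ρ.asAlgebraHom (b * σ * a * s) u₀, x⟫_ℝ = 0 := by
    intro x hx
    have e1 : ρ.asAlgebraHom (b * σ * a * s) u₀ = ρ.asAlgebraHom b (ρ.asAlgebraHom σ y) := by
      rw [hyd, mul_assoc, map_mul, map_mul, Module.End.mul_apply, Module.End.mul_apply]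
    rw [e1, real_inner_comm, ← hbadj, real_inner_comm, hσy, real_inner_smul_left,
      hort _ ⟨x, hx, rfl⟩, mul_zero]
  have h0 : ρ.asAlgebraHom (b * σ * a * s) u₀ = 0 := by
    have := hz (ρ.asAlgebraHom (b * σ * a * s) u₀) (L_mem ρ hU _ _ hu₀)
    exact (inner_self_eq_zero (𝕜 := ℝ)).1 this
  have h1 := hmin (b * σ * a) (S.mul_mem (S.mul_mem hb hst) ha) u₀ hu₀ h0
  apply hy0
  rw [hyd, map_mul, Module.End.mul_apply, h1, map_zero]

end Rep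

end Pool.Agent.H55.MX
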