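import Pool.Agent.H55.MX.Kill

set_option autoImplicit false
set_option linter.unusedSectionVars false
set_option linter.style.longLine false

/-!
# The induction on the dimension
-/

namespace Pool.Agent.H55.MX

open scoped InnerProductSpace

variable {G : Type*} [Group G] [Fintype G] {V : Type*} [NormedAddCommGroup V]
  [InnerProductSpace ℝ V] [FiniteDimensional ℝ V]
  {ρ : Representation ℝ G V} {S : Submonoid (MonoidAlgebra ℝ G)}

/-- the sum of the conjugates -/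
noncomputable def csum (ρ : Representation ℝ G V) (t : G) : V →ₗ[ℝ] V := ∑ g, ρ (g * t * g⁻¹)

lemma csum_apply (ρ : Representation ℝ G V) (t : G) (v : V) :
    csum ρ t v = ∑ g, ρ (g * t * g⁻¹) v := by
  rw [csum, LinearMap.sum_apply]

lemma csum_comm (ρ : Representation ℝ G V) (t h : G) (v : V) :
    csum ρ t (ρ h v) = ρ h (csum ρ t v) := by
  rw [csum_apply, csum_apply, map_sum]
  refine Fintype.sum_equiv (Equiv.mulLeft h⁻¹) _ _ fun g => ?_
  rw [← rho_mul, ← rho_mul]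
  congr 2
  simp only [Equiv.coe_mulLeft]
  group

theorem kill (hρ : ∀ g (x y : V), ⟪ρ g x, ρ g y⟫_ℝ = ⟪x, y⟫_ℝ)
    (hG : ∀ g, MonoidAlgebra.of ℝ G g ∈ S) (hadj : Adj ρ S) {T : Set G}
    (hT : ∀ t ∈ T, ∃ n : ℕ, t ^ 2 ^ n = 1) (hsq : ∀ t ∈ T, t ^ 2 ∈ T)
    (hst : ∀ t ∈ T, ∀ p : ℝ, 0 ≤ p → p ≤ 1 → fac p t ∈ S)
    (hN : Subgroup.normalClosure T = ⊤) (n : ℕ) :
    ∀ U : Submodule ℝ V, Module.finrank ℝ U = n → (∀ g, ∀ u ∈ U, ρ g u ∈ U) →
      (∀ u ∈ U, (∀ g, ρ g u = u) → u = 0) → ∃ s ∈ S, ∀ u ∈ U, ρ.asAlgebraHom s u = 0 := by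
  classical
  induction n using Nat.strong_induction_on with
  | _ n ih =>
  intro U hUn hU hfix
  by_cases hbot : U = ⊥
  · refine ⟨1, S.one_mem, fun u hu => ?_⟩
    rw [hbot, Submodule.mem_bot] at hu
    rw [hu, map_zero]
  -- an element of `T` acting nontrivially
  obtain ⟨t₀, ht₀, hne₀⟩ : ∃ t ∈ T, ∃ u ∈ U, ρ t u ≠ u := by
    by_contra hcon
    push Not at hcon
    apply hbot
    rw [Submodule.eq_bot_iff]
    intro u hu
    let N : Subgroup G :=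
      { carrier := {g | ∀ u ∈ U, ρ g u = u}
        mul_mem' := fun {a b} ha hb u hu => by rw [rho_mul, hb u hu, ha u hu]
        one_mem' := fun u _ => by rw [map_one, Module.End.one_apply]
        inv_mem' := fun {a} ha u hu => by
          have h1 := rho_inv ρ a⁻¹ u
          rw [inv_inv, ha u hu] at h1
          exact h1 }
    have hNn : N.Normal := ⟨fun a ha g u hu => by
      rw [rho_mul, rho_mul, ha _ (hU _ _ hu), rho_inv]⟩
    have hle : Subgroup.normalClosure T ≤ N :=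
      Subgroup.normalClosure_le_normal fun t ht => fun u hu => hcon t ht u hu
    exact hfix u hu fun g => (hle (hN ▸ Subgroup.mem_top g) : g ∈ N) u hu
  -- a power of it acts as an involution
  have hpow : ∀ k : ℕ, t₀ ^ 2 ^ k ∈ T := fun k => by
    induction k with
    | zero => simpa using ht₀
    | succ k ihk => rw [pow_succ, pow_mul]; exact hsq _ ihk
  obtain ⟨a, ha⟩ := hT t₀ ht₀
  have hex : ∃ k : ℕ, ∀ u ∈ U, ρ (t₀ ^ 2 ^ k) u = u :=
    ⟨a, fun u _ => by rw [ha, map_one, Module.End.one_apply]⟩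
  obtain ⟨k, hk, hkmin⟩ : ∃ k : ℕ, (∀ u ∈ U, ρ (t₀ ^ 2 ^ (k + 1)) u = u) ∧
      ∃ u ∈ U, ρ (t₀ ^ 2 ^ k) u ≠ u := by
    have h1 := Nat.find_spec hex
    have h2 : Nat.find hex ≠ 0 := fun h0 => by
      rw [h0] at h1
      obtain ⟨u, hu, hu0⟩ := hne₀
      apply hu0
      have := h1 u hu
      rwa [pow_zero, pow_one] at this
    obtain ⟨k, hk⟩ := Nat.exists_eq_succ_of_ne_zero h2
    refine ⟨k, by rw [hk] at h1; exact h1, ?_⟩
    have h3 := Nat.find_min hex (m := k) (by omega)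
    push Not at h3
    exact h3
  set t := t₀ ^ 2 ^ k with htdef
  have htT : t ∈ T := hpow k
  have ht : ∀ u ∈ U, ρ t (ρ t u) = u := fun u hu => by
    rw [← rho_mul, htdef, ← pow_add]
    have := hk u hu
    rwa [pow_succ, mul_two] at this
  by_cases hsc : ∃ lam : ℝ, ∀ u ∈ U, csum ρ t u = lam • u
  · obtain ⟨lam, hlam⟩ := hsc
    exact kill_scalar hρ hG hadj hU ht (hst t htT)
      (fun u hu => by rw [← csum_apply]; exact hlam u hu) hkmin
  -- otherwise split `U`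
  push Not at hsc
  have hCU : ∀ u ∈ U, csum ρ t u ∈ U := fun u hu => by
    rw [csum_apply]
    exact U.sum_mem fun g _ => hU _ _ hu
  have hsym : ∀ x ∈ U, ∀ y ∈ U, ⟪csum ρ t x, y⟫_ℝ = ⟪x, csum ρ t y⟫_ℝ := fun x hx y hy => by
    rw [csum_apply, csum_apply, sum_inner, inner_sum]
    refine Finset.sum_congr rfl fun g _ => ?_
    have h1 : ρ (g * t * g⁻¹) (ρ (g * t * g⁻¹) y) = y := by
      rw [rho_mul, rho_mul, rho_mul ρ (g * t), rho_mul ρ g t]
      have h2 : ρ g⁻¹ (ρ g (ρ t (ρ g⁻¹ y))) = ρ t (ρ g⁻¹ y) := by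
        have := rho_inv ρ g⁻¹ (ρ t (ρ g⁻¹ y))
        rwa [inv_inv] at this
      rw [h2, ht _ (hU _ _ hy), rho_inv]
    rw [← hρ (g * t * g⁻¹) x (ρ (g * t * g⁻¹) y), h1]
  have : Nontrivial U := Submodule.nontrivial_iff_ne_bot.2 hbot
  set CU : U →ₗ[ℝ] U := (csum ρ t).restrict hCU with hCUdef
  have hCUs : CU.IsSymmetric := fun x y => hsym x x.2 y y.2
  obtain ⟨lam, hlam⟩ : ∃ lam : ℝ, Module.End.HasEigenvalue CU lam :=
    ⟨_, hCUs.hasEigenvalue_iSup_of_finiteDimensional⟩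
  obtain ⟨v', hv'⟩ := hlam.exists_hasEigenvector
  obtain ⟨v, hv, hv0, hvl⟩ : ∃ v : V, v ∈ U ∧ v ≠ 0 ∧ csum ρ t v = lam • v :=
    ⟨(v' : V), v'.2, fun h => hv'.2 (Subtype.ext h), congrArg Subtype.val hv'.apply_eq_smul⟩
  let U₁ : Submodule ℝ V := U ⊓ LinearMap.ker (csum ρ t - lam • LinearMap.id)
  have hU₁ : ∀ u, u ∈ U₁ ↔ u ∈ U ∧ csum ρ t u = lam • u := fun u => by
    rw [Submodule.mem_inf, LinearMap.mem_ker, LinearMap.sub_apply, LinearMap.smul_apply,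
      LinearMap.id_apply, sub_eq_zero]
  let U₂ : Submodule ℝ V := U ⊓ U₁ᗮ
  have hle₁ : U₁ < U := by
    refine lt_of_le_of_ne inf_le_left fun h => ?_
    obtain ⟨u, hu, hu0⟩ := hsc lam
    exact hu0 ((hU₁ u).1 (h ▸ hu)).2
  have hle₂ : U₂ < U := by
    refine lt_of_le_of_ne inf_le_left fun h => ?_
    have h1 : v ∈ U₂ := h ▸ hv
    have h2 : v ∈ U₁ := (hU₁ v).2 ⟨hv, hvl⟩
    exact hv0 ((inner_self_eq_zero (𝕜 := ℝ)).1 ((Submodule.mem_orthogonal _ _).1 h1.2 v h2))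
  have hinv₁ : ∀ g, ∀ u ∈ U₁, ρ g u ∈ U₁ := fun g u hu => by
    rw [hU₁] at hu ⊢
    exact ⟨hU g u hu.1, by rw [csum_comm, hu.2, map_smul]⟩
  have hinv₂ : ∀ g, ∀ u ∈ U₂, ρ g u ∈ U₂ := fun g u hu => by
    refine ⟨hU g u hu.1, (Submodule.mem_orthogonal _ _).2 fun w hw => ?_⟩
    have h1 := (Submodule.mem_orthogonal _ _).1 hu.2 (ρ g⁻¹ w) (hinv₁ _ _ hw)
    rwa [← hρ g, rho_inv] at h1
  obtain ⟨s₁, hs₁, h₁⟩ := ih _ (hUn ▸ Submodule.finrank_lt_finrank_of_lt hle₁) U₁ rfl hinv₁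
    fun u hu => hfix u hu.1
  obtain ⟨s₂, hs₂, h₂⟩ := ih _ (hUn ▸ Submodule.finrank_lt_finrank_of_lt hle₂) U₂ rfl hinv₂
    fun u hu => hfix u hu.1
  refine ⟨s₁ * s₂, S.mul_mem hs₁ hs₂, fun u hu => ?_⟩
  obtain ⟨x, hx, z, hz, hxz⟩ := U₁.exists_add_mem_mem_orthogonal u
  have hzU : z ∈ U := by
    have : z = u - x := by rw [hxz]; abel
    rw [this]
    exact U.sub_mem hu hx.1
  rw [hxz, map_add, map_mul, Module.End.mul_apply, Module.End.mul_apply, h₂ z ⟨hzU, hz⟩, map_zero,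
    add_zero]
  exact h₁ _ (L_mem ρ hinv₁ _ _ hx)

end Pool.Agent.H55.MX
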