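import Pool.Agent.H55.MX.Core

set_option autoImplicit false
set_option linter.unusedSectionVars false
set_option linter.style.longLine false

/-!
# Killing an invariant subspace without fixed vectors by lazy steps
-/

namespace Pool.Agent.H55.MX

open scoped InnerProductSpace

variable {G : Type*} [Group G] [Fintype G] {V : Type*} [NormedAddCommGroup V]
  [InnerProductSpace ℝ V] [FiniteDimensional ℝ V]
  {ρ : Representation ℝ G V} {S : Submonoid (MonoidAlgebra ℝ G)}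

lemma rho_mul (ρ : Representation ℝ G V) (g h : G) (v : V) : ρ (g * h) v = ρ g (ρ h v) := by
  rw [map_mul, Module.End.mul_apply]

lemma rho_inv (ρ : Representation ℝ G V) (g : G) (v : V) : ρ g (ρ g⁻¹ v) = v := by
  rw [← rho_mul, mul_inv_cancel, map_one, Module.End.one_apply]

lemma norm_rho (hρ : ∀ g (x y : V), ⟪ρ g x, ρ g y⟫_ℝ = ⟪x, y⟫_ℝ) (g : G) (x : V) :
    ‖ρ g x‖ = ‖x‖ := by
  have h := hρ g x x
  rw [real_inner_self_eq_norm_sq, real_inner_self_eq_norm_sq] at h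
  exact (sq_eq_sq₀ (norm_nonneg _) (norm_nonneg _)).1 h

lemma fac_conj (p : ℝ) (g t : G) : fac p (g * t * g⁻¹) =
    MonoidAlgebra.of ℝ G g * fac p t * MonoidAlgebra.of ℝ G g⁻¹ := by
  unfold fac
  rw [mul_add, add_mul, mul_smul_comm, smul_mul_assoc, mul_one, mul_smul_comm, smul_mul_assoc,
    ← map_mul, ← map_mul, ← map_mul, mul_inv_cancel, map_one]

lemma fac_apply (p : ℝ) (t : G) (v : V) :
    ρ.asAlgebraHom (fac p t) v = (1 - p) • v + p • ρ t v := by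
  unfold fac
  rw [map_add, map_smul, map_smul, map_one, Representation.asAlgebraHom_of]
  rfl

/-- The main step: `t` acts on `U` as a nontrivial involution and the sum of its conjugates acts
on `U` as a scalar. -/
theorem kill_scalar (hρ : ∀ g (x y : V), ⟪ρ g x, ρ g y⟫_ℝ = ⟪x, y⟫_ℝ)
    (hG : ∀ g, MonoidAlgebra.of ℝ G g ∈ S) (hadj : Adj ρ S)
    {U : Submodule ℝ V} (hU : ∀ g, ∀ u ∈ U, ρ g u ∈ U) {t : G}
    (ht : ∀ u ∈ U, ρ t (ρ t u) = u) (hst : ∀ p : ℝ, 0 ≤ p → p ≤ 1 → fac p t ∈ S)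
    {lam : ℝ} (hC : ∀ u ∈ U, ∑ g, ρ (g * t * g⁻¹) u = lam • u) (hne : ∃ u ∈ U, ρ t u ≠ u) :
    ∃ s ∈ S, ∀ u ∈ U, ρ.asAlgebraHom s u = 0 := by
  classical
  by_contra hno
  push Not at hno
  obtain ⟨s, hs, hmin⟩ := exists_min (ρ := ρ) (S := S) U
  obtain ⟨u₁, hu₁, hu₁0⟩ := hno s hs
  have hsym : ∀ x ∈ U, ∀ y ∈ U, ⟪ρ t x, y⟫_ℝ = ⟪x, ρ t y⟫_ℝ := fun x hx y hy => by
    rw [← hρ t x (ρ t y), ht y hy]
  have hP : ∀ a ∈ S, ∀ u ∈ U, 0 ≤ ⟪ρ t (ρ.asAlgebraHom (a * s) u), ρ.asAlgebraHom (a * s) u⟫_ℝ :=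
    fun a ha u hu => by
      have := psd (τ := MonoidAlgebra.of ℝ G t) hadj hU hs hmin
        (by rw [Representation.asAlgebraHom_of]; exact hsym) hst ha hu
      rwa [Representation.asAlgebraHom_of] at this
  -- the closed cone
  set D : Set V := {v | ∃ c : ℝ, 0 ≤ c ∧ ∃ a ∈ S, v = c • ρ.asAlgebraHom (a * s) u₁} with hD
  set K := closure D with hK
  have hKc : IsClosed K := isClosed_closure
  have hKcone : ∀ c : ℝ, 0 ≤ c → ∀ y ∈ K, c • y ∈ K := fun c hc y hy =>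
    map_mem_closure (continuous_const_smul c) hy fun z hz => by
      obtain ⟨d, hd, a, ha, rfl⟩ := hz
      exact ⟨c * d, mul_nonneg hc hd, a, ha, by rw [smul_smul]⟩
  have hKL : ∀ b ∈ S, ∀ y ∈ K, ρ.asAlgebraHom b y ∈ K := fun b hb y hy =>
    map_mem_closure (ρ.asAlgebraHom b).continuous_of_finiteDimensional hy fun z hz => by
      obtain ⟨d, hd, a, ha, rfl⟩ := hz
      exact ⟨d, hd, b * a, S.mul_mem hb ha, by
        rw [map_smul, mul_assoc b a s, map_mul _ b (a * s), Module.End.mul_apply]⟩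
  have hKU : ∀ y ∈ K, y ∈ U := by
    have hUc : IsClosed (U : Set V) := U.closed_of_finiteDimensional
    have : K ⊆ (U : Set V) := closure_minimal (fun z hz => by
      obtain ⟨d, hd, a, ha, rfl⟩ := hz
      exact U.smul_mem d (L_mem ρ hU _ _ hu₁)) hUc
    exact this
  have hKP : ∀ y ∈ K, 0 ≤ ⟪ρ t y, y⟫_ℝ := by
    have hc : IsClosed {y : V | 0 ≤ ⟪ρ t y, y⟫_ℝ} :=
      isClosed_le continuous_const
        ((ρ t).continuous_of_finiteDimensional.inner continuous_id)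
    have : K ⊆ {y : V | 0 ≤ ⟪ρ t y, y⟫_ℝ} := closure_minimal (fun z hz => by
      obtain ⟨d, hd, a, ha, rfl⟩ := hz
      show 0 ≤ ⟪ρ t _, _⟫_ℝ
      rw [map_smul, real_inner_smul_left, real_inner_smul_right]
      exact mul_nonneg hd (mul_nonneg hd (hP a ha u₁ hu₁))) hc
    exact this
  have hKne : ∃ y ∈ K, y ≠ 0 := by
    refine ⟨ρ.asAlgebraHom s u₁, subset_closure ⟨1, zero_le_one, 1, S.one_mem, ?_⟩, hu₁0⟩
    rw [one_mul, one_smul]
  obtain ⟨y, hyK, hy1, hymin⟩ := cone_min K hKc hKcone hKne (ρ t)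
  set m := ⟪ρ t y, y⟫_ℝ with hm
  have hm0 : 0 ≤ m := hKP y hyK
  have hyU := hKU y hyK
  set z : G → V := fun g => ρ (g * t * g⁻¹) y with hz
  have hzU : ∀ g, z g ∈ U := fun g => hU _ _ hyU
  have hstepK : ∀ g, ∀ e : ℝ, 0 ≤ e → y + e • z g ∈ K := fun g e he => by
    have he1 : (1 + e) ≠ 0 := by positivity
    have h1 : fac (e / (1 + e)) (g * t * g⁻¹) ∈ S := by
      rw [fac_conj]
      refine S.mul_mem (S.mul_mem (hG g) (hst _ (by positivity) ?_)) (hG _)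
      rw [div_le_one (by positivity)]
      linarith
    have h2 := hKcone (1 + e) (by positivity) _ (hKL _ h1 y hyK)
    rw [fac_apply] at h2
    have h3 : (1 + e) • ((1 - e / (1 + e)) • y + (e / (1 + e)) • ρ (g * t * g⁻¹) y) =
        y + e • z g := by
      have e1 : (1 + e) * (1 - e / (1 + e)) = 1 := by field_simp; ring
      have e2 : (1 + e) * (e / (1 + e)) = e := by field_simp
      rw [smul_add, smul_smul, smul_smul, e1, e2, one_smul]
    rw [h3] at h2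
    exact h2
  have hfo : ∀ g, m * ⟪y, z g⟫_ℝ ≤ ⟪ρ t y, z g⟫_ℝ := fun g =>
    first_order (ρ t) (hsym _ (hzU g) _ hyU) (by rw [hy1]; ring)
      fun e he => hymin _ (hstepK g e he)
  have hsum : ∑ g, (⟪ρ t y, z g⟫_ℝ - m * ⟪y, z g⟫_ℝ) = 0 := by
    rw [Finset.sum_sub_distrib, ← Finset.mul_sum, ← inner_sum, ← inner_sum, hz]
    simp only []
    rw [hC y hyU, real_inner_smul_right, real_inner_smul_right, ← hm,
      real_inner_self_eq_norm_sq, hy1]
    ring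
  have hall := (Finset.sum_eq_zero_iff_of_nonneg (fun g _ => sub_nonneg.2 (hfo g))).1 hsum
  have h1 := hall 1 (Finset.mem_univ _)
  have hz1 : z 1 = ρ t y := by rw [hz]; simp
  rw [hz1, real_inner_comm (ρ t y) y, ← hm, real_inner_self_eq_norm_sq, norm_rho hρ, hy1] at h1
  have hm1 : m = 1 := by nlinarith
  -- every conjugate fixes `y`, so the scalar is `|G|`
  have h2 : ∀ g, 1 ≤ ⟪z g, y⟫_ℝ := fun g => by
    have h3 := hKL _ (hG g⁻¹) y hyK
    rw [Representation.asAlgebraHom_of] at h3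
    have h4 := hymin _ h3
    rw [norm_rho hρ, hy1, hm1] at h4
    have h5 : ⟪z g, y⟫_ℝ = ⟪ρ t (ρ g⁻¹ y), ρ g⁻¹ y⟫_ℝ := by
      rw [hz, ← hρ g (ρ t (ρ g⁻¹ y)) (ρ g⁻¹ y), rho_inv]
      simp only []
      rw [rho_mul, rho_mul]
    rw [h5]
    linarith
  have h3 : (Fintype.card G : ℝ) ≤ lam := by
    have h4 : ∑ g : G, (1 : ℝ) ≤ ∑ g, ⟪z g, y⟫_ℝ := Finset.sum_le_sum fun g _ => h2 g
    rw [← sum_inner, hz] at h4
    simp only [] at h4
    rw [hC y hyU, real_inner_smul_left, real_inner_self_eq_norm_sq, hy1] at h4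
    simpa using h4
  obtain ⟨u, hu, hu0⟩ := hne
  apply hu0
  have h4 : ∀ g ∈ (Finset.univ : Finset G), 0 ≤ ‖u‖ ^ 2 - ⟪ρ (g * t * g⁻¹) u, u⟫_ℝ :=
    fun g _ => by
      have h5 := real_inner_le_norm (ρ (g * t * g⁻¹) u) u
      rw [norm_rho hρ] at h5
      nlinarith
  have h5 : ∑ g : G, (‖u‖ ^ 2 - ⟪ρ (g * t * g⁻¹) u, u⟫_ℝ) = 0 := by
    apply le_antisymm _ (Finset.sum_nonneg h4)
    rw [Finset.sum_sub_distrib, ← sum_inner, hC u hu, real_inner_smul_left,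
      real_inner_self_eq_norm_sq, Finset.sum_const, Finset.card_univ, nsmul_eq_mul]
    nlinarith [sq_nonneg ‖u‖]
  have h6 := (Finset.sum_eq_zero_iff_of_nonneg h4).1 h5 1 (Finset.mem_univ _)
  rw [one_mul, inv_one, mul_one] at h6
  have h7 : ‖ρ t u - u‖ ^ 2 = 0 := by
    rw [norm_sub_sq_real, norm_rho hρ]
    linarith
  have h8 : ‖ρ t u - u‖ = 0 := by simpa using h7
  exact sub_eq_zero.1 (norm_eq_zero.1 h8)

end Pool.Agent.H55.MX
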