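import Pool.Agent.H55.MX.Ind

set_option autoImplicit false
set_option linter.unusedSectionVars false
set_option linter.style.longLine false

/-!
# Exact mixing by lazy steps from a prescribed set
-/

namespace Pool.Agent.H55.MX

open scoped InnerProductSpace

variable {G : Type*} [Group G] [Fintype G]

/-- the left regular representation on functions -/
noncomputable def reg (G : Type*) [Group G] [Fintype G] :
    Representation ℝ G (EuclideanSpace ℝ G) where
  toFun g :=
    { toFun := fun f => WithLp.toLp 2 fun x => f (g⁻¹ * x)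
      map_add' := fun f h => by ext x; rfl
      map_smul' := fun c f => by ext x; rfl }
  map_one' := by ext f x; simp
  map_mul' g h := by ext f x; simp [mul_assoc]

lemma reg_apply (g : G) (f : EuclideanSpace ℝ G) (x : G) : reg G g f x = f (g⁻¹ * x) := rfl

lemma reg_inner (g : G) (f h : EuclideanSpace ℝ G) : ⟪reg G g f, reg G g h⟫_ℝ = ⟪f, h⟫_ℝ := by
  rw [PiLp.inner_apply, PiLp.inner_apply]
  exact Fintype.sum_equiv (Equiv.mulLeft g⁻¹) _ _ fun x => rfl

lemma alg_apply (a : MonoidAlgebra ℝ G) (f : EuclideanSpace ℝ G) (x : G) :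
    (reg G).asAlgebraHom a f x = ∑ g, a.coeff g * f (g⁻¹ * x) := by
  classical
  induction a using MonoidAlgebra.induction_on with
  | of g =>
    rw [Representation.asAlgebraHom_of, reg_apply, Finset.sum_eq_single g]
    · rw [MonoidAlgebra.of_apply, MonoidAlgebra.coeff_single_apply, if_pos rfl, one_mul]
    · intro b _ hb
      rw [MonoidAlgebra.of_apply, MonoidAlgebra.coeff_single_apply, if_neg (Ne.symm hb), zero_mul]
    · intro h; exact absurd (Finset.mem_univ g) h
  | add a b ha hb =>
    rw [map_add, LinearMap.add_apply, PiLp.add_apply, ha, hb, ← Finset.sum_add_distrib]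
    exact Finset.sum_congr rfl fun g _ => by rw [MonoidAlgebra.coeff_add, Finsupp.add_apply, add_mul]
  | smul r a ha =>
    rw [map_smul, LinearMap.smul_apply, PiLp.smul_apply, ha, smul_eq_mul, Finset.mul_sum]
    exact Finset.sum_congr rfl fun g _ => by rw [MonoidAlgebra.coeff_smul_apply, smul_eq_mul, mul_assoc]

/-- the uniform law -/
noncomputable def unif (G : Type*) [Group G] [Fintype G] : MonoidAlgebra ℝ G :=
  (Fintype.card G : ℝ)⁻¹ • ∑ g, MonoidAlgebra.of ℝ G g

lemma unif_apply (x : G) : (unif G).coeff x = (Fintype.card G : ℝ)⁻¹ := by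
  classical
  unfold unif
  rw [MonoidAlgebra.coeff_smul_apply, MonoidAlgebra.coeff_sum, Finsupp.finset_sum_apply,
    Finset.sum_eq_single x]
  · rw [MonoidAlgebra.of_apply, MonoidAlgebra.coeff_single_apply, if_pos rfl, smul_eq_mul, mul_one]
  · intro b _ hb
    rw [MonoidAlgebra.of_apply, MonoidAlgebra.coeff_single_apply, if_neg hb]
  · intro h; exact absurd (Finset.mem_univ x) h

/-- the lazy steps with values in `T` -/
def steps (T : Set G) : Set (MonoidAlgebra ℝ G) :=
  {x | ∃ t ∈ T, ∃ q ∈ Set.Icc (0 : ℝ) 1, x = fac q t}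

/-- the products of lazy steps -/
noncomputable def prods (T : Set G) : Submonoid (MonoidAlgebra ℝ G) := Submonoid.closure (steps T)

lemma fac_mem {T : Set G} {t : G} (ht : t ∈ T) {p : ℝ} (h0 : 0 ≤ p) (h1 : p ≤ 1) :
    fac p t ∈ prods T := Submonoid.subset_closure ⟨t, ht, p, ⟨h0, h1⟩, rfl⟩

lemma fac_one (t : G) : fac 1 t = MonoidAlgebra.of ℝ G t := by
  unfold fac; simp

lemma inv_mem_of_pow {T : Set G} (hpow : ∀ t ∈ T, ∀ k : ℕ, t ^ k ∈ T) {t : G} (ht : t ∈ T) :
    t⁻¹ ∈ T := by
  have h1 : t⁻¹ = t ^ (orderOf t - 1) := by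
    have h2 : 0 < orderOf t := orderOf_pos t
    rw [inv_eq_iff_mul_eq_one, ← pow_succ', Nat.sub_add_cancel h2, pow_orderOf_eq_one]
  rw [h1]
  exact hpow t ht _

lemma of_mem {T : Set G} (hpow : ∀ t ∈ T, ∀ k : ℕ, t ^ k ∈ T) (hT : Subgroup.closure T = ⊤)
    (g : G) : MonoidAlgebra.of ℝ G g ∈ prods T := by
  let N : Subgroup G :=
    { carrier := {g | MonoidAlgebra.of ℝ G g ∈ prods T ∧ MonoidAlgebra.of ℝ G g⁻¹ ∈ prods T}
      mul_mem' := fun {a b} ha hb => by
        refine ⟨?_, ?_⟩
        · rw [map_mul]; exact Submonoid.mul_mem _ ha.1 hb.1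
        · rw [mul_inv_rev, map_mul]; exact Submonoid.mul_mem _ hb.2 ha.2
      one_mem' := ⟨by rw [map_one]; exact Submonoid.one_mem _,
        by rw [inv_one, map_one]; exact Submonoid.one_mem _⟩
      inv_mem' := fun {a} ha => ⟨ha.2, by rw [inv_inv]; exact ha.1⟩ }
  have hle : Subgroup.closure T ≤ N := (Subgroup.closure_le N).2 fun t ht => by
    refine ⟨?_, ?_⟩
    · rw [← fac_one]; exact fac_mem ht zero_le_one le_rfl
    · rw [← fac_one]; exact fac_mem (inv_mem_of_pow hpow ht) zero_le_one le_rfl
  exact (hle (hT ▸ Subgroup.mem_top g) : g ∈ N).1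

lemma adj_prods {V : Type*} [NormedAddCommGroup V] [InnerProductSpace ℝ V]
    {ρ : Representation ℝ G V} (hρ : ∀ g (x y : V), ⟪ρ g x, ρ g y⟫_ℝ = ⟪x, y⟫_ℝ) {T : Set G}
    (hpow : ∀ t ∈ T, ∀ k : ℕ, t ^ k ∈ T) : Adj ρ (prods T) := by
  intro a ha
  induction ha using Submonoid.closure_induction with
  | mem x hx =>
    obtain ⟨t, ht, q, hq, rfl⟩ := hx
    refine ⟨fac q t⁻¹, fac_mem (inv_mem_of_pow hpow ht) hq.1 hq.2, fun x y => ?_⟩
    have h1 : ⟪ρ t x, y⟫_ℝ = ⟪x, ρ t⁻¹ y⟫_ℝ := by
      rw [← hρ t x (ρ t⁻¹ y)]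
      congr 1
      rw [← Module.End.mul_apply, ← map_mul, mul_inv_cancel, map_one, Module.End.one_apply]
    have e : ∀ (p : ℝ) (g : G) (v : V),
        ρ.asAlgebraHom (fac p g) v = (1 - p) • v + p • ρ g v := fun p g v => by
      unfold fac
      rw [map_add, map_smul, map_smul, map_one, Representation.asAlgebraHom_of]
      rfl
    rw [e, e, inner_add_left, inner_add_right, real_inner_smul_left, real_inner_smul_left,
      real_inner_smul_right, real_inner_smul_right, h1]
  | one => exact ⟨1, Submonoid.one_mem _, fun x y => by rw [map_one]; rfl⟩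
  | mul a b _ _ iha ihb =>
    obtain ⟨a', ha', h1⟩ := iha
    obtain ⟨b', hb', h2⟩ := ihb
    refine ⟨b' * a', Submonoid.mul_mem _ hb' ha', fun x y => ?_⟩
    rw [map_mul, map_mul, Module.End.mul_apply, Module.End.mul_apply, h1, h2]

lemma fixed_prods {T : Set G} {f : EuclideanSpace ℝ G} (hf : ∀ t ∈ T, reg G t f = f)
    {s : MonoidAlgebra ℝ G} (hs : s ∈ prods T) : (reg G).asAlgebraHom s f = f := by
  induction hs using Submonoid.closure_induction with
  | mem x hx =>
    obtain ⟨t, ht, q, hq, rfl⟩ := hx
    rw [fac_apply, hf t ht, ← add_smul]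
    simp
  | one => rw [map_one]; rfl
  | mul a b _ _ iha ihb => rw [map_mul, Module.End.mul_apply, ihb, iha]

lemma unif_kill (f : EuclideanSpace ℝ G) (x : G) :
    (reg G).asAlgebraHom (unif G) f x = (Fintype.card G : ℝ)⁻¹ * ∑ y, f y := by
  rw [alg_apply, Finset.mul_sum]
  simp_rw [unif_apply]
  exact Fintype.sum_equiv ((Equiv.inv G).trans (Equiv.mulRight x)) _ _ fun g => rfl

/-- functions with sum zero -/
def U0 (G : Type*) [Group G] [Fintype G] : Submodule ℝ (EuclideanSpace ℝ G) where
  carrier := {f | ∑ x, f x = 0}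
  add_mem' := fun {f h} hf hh => by
    show ∑ x, (f + h) x = 0
    simp only [PiLp.add_apply, Finset.sum_add_distrib]
    rw [show ∑ x, f x = 0 from hf, show ∑ x, h x = 0 from hh, add_zero]
  zero_mem' := by
    show ∑ x, (0 : EuclideanSpace ℝ G) x = 0
    simp
  smul_mem' := fun c f hf => by
    show ∑ x, (c • f) x = 0
    simp only [PiLp.smul_apply, smul_eq_mul, ← Finset.mul_sum]
    rw [show ∑ x, f x = 0 from hf, mul_zero]

lemma mem_U0 (f : EuclideanSpace ℝ G) : f ∈ U0 G ↔ ∑ x, f x = 0 := Iff.rfl

lemma reg_sum (g : G) (f : EuclideanSpace ℝ G) : ∑ x, reg G g f x = ∑ x, f x :=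
  Fintype.sum_equiv (Equiv.mulLeft g⁻¹) _ _ fun x => rfl

/-- An element of `prods T` which kills the functions with sum zero is the uniform law. -/
lemma eq_unif {T : Set G} {s : MonoidAlgebra ℝ G} (hs : s ∈ prods T)
    (h : ∀ f ∈ U0 G, (reg G).asAlgebraHom s f = 0) : s = unif G := by
  classical
  have h1 : ∀ x, s.coeff x = s.coeff 1 := fun x => by
    have h2 : EuclideanSpace.single (1 : G) (1 : ℝ) - EuclideanSpace.single x 1 ∈ U0 G := by
      rw [mem_U0]
      simp
    have h3 := congrArg (fun f : EuclideanSpace ℝ G => f x) (h _ h2)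
    simp only [] at h3
    rw [alg_apply] at h3
    have h4 : ∀ g : G, s.coeff g * (EuclideanSpace.single (1 : G) (1 : ℝ) -
        EuclideanSpace.single x 1 : EuclideanSpace ℝ G) (g⁻¹ * x) =
        (if g = x then s.coeff g else 0) - (if g = 1 then s.coeff g else 0) := fun g => by
      rw [PiLp.sub_apply, EuclideanSpace.single_apply, EuclideanSpace.single_apply, mul_sub]
      have e1 : (g⁻¹ * x = 1) ↔ g = x := by rw [inv_mul_eq_one]
      have e2 : (g⁻¹ * x = x) ↔ g = 1 := by simp
      simp only [e1, e2, mul_ite, mul_one, mul_zero]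
    rw [Finset.sum_congr rfl fun g _ => h4 g, Finset.sum_sub_distrib,
      Finset.sum_ite_eq' Finset.univ x, Finset.sum_ite_eq' Finset.univ (1 : G)] at h3
    simp only [Finset.mem_univ, if_true] at h3
    have h5 : (0 : EuclideanSpace ℝ G) x = 0 := rfl
    rw [h5] at h3
    linarith
  have h2 : ∑ g, s.coeff g = 1 := by
    set e : EuclideanSpace ℝ G := WithLp.toLp 2 fun _ => (1 : ℝ) with he
    have h3 := fixed_prods (f := e) (fun t _ => by ext x; rfl) hs
    have h4 := congrArg (fun f : EuclideanSpace ℝ G => f 1) h3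
    simp only [] at h4
    rw [alg_apply] at h4
    simpa [he] using h4
  have hn : (Fintype.card G : ℝ) ≠ 0 := Nat.cast_ne_zero.2 Fintype.card_ne_zero
  have h3 : s.coeff 1 = (Fintype.card G : ℝ)⁻¹ := by
    rw [Finset.sum_congr rfl fun g _ => h1 g, Finset.sum_const, Finset.card_univ,
      nsmul_eq_mul] at h2
    field_simp
    linarith
  ext x
  rw [h1, h3, unif_apply]

/-- **Lazy steps from a prescribed set.** Let `T` be closed under powers. The uniform law is a
product of lazy steps `(1 - q) 1 + q t`, `t ∈ T`, if and only if `T` generates `G` and the elements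
of `T` of `2`-power order normally generate `G`. -/
theorem uniform_iff (T : Set G) (hpow : ∀ t ∈ T, ∀ k : ℕ, t ^ k ∈ T) :
    unif G ∈ prods T ↔ Subgroup.closure T = ⊤ ∧
      Subgroup.normalClosure {t | t ∈ T ∧ ∃ k : ℕ, t ^ 2 ^ k = 1} = ⊤ := by
  classical
  have hn : (Fintype.card G : ℝ) ≠ 0 := Nat.cast_ne_zero.2 Fintype.card_ne_zero
  constructor
  · intro hu
    refine ⟨?_, ?_⟩
    · rw [Subgroup.eq_top_iff']
      set H := Subgroup.closure T
      intro x
      set f : EuclideanSpace ℝ G := WithLp.toLp 2 fun x => if x ∈ H then (1 : ℝ) else 0 with hf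
      have h1 : ∀ t ∈ T, reg G t f = f := fun t ht => by
        ext y
        show (if t⁻¹ * y ∈ H then (1 : ℝ) else 0) = if y ∈ H then 1 else 0
        have : t⁻¹ * y ∈ H ↔ y ∈ H :=
          H.mul_mem_cancel_left (H.inv_mem (Subgroup.subset_closure ht))
        simp only [this]
      have h2 := fixed_prods h1 hu
      have h3 : f x = f 1 := by
        conv_lhs => rw [← h2]
        conv_rhs => rw [← h2]
        rw [unif_kill, unif_kill]
      have h4 : f 1 = 1 := by
        show (if (1 : G) ∈ H then (1 : ℝ) else 0) = 1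
        rw [if_pos H.one_mem]
      rw [h4] at h3
      by_contra hx
      have h5 : f x = 0 := by
        show (if x ∈ H then (1 : ℝ) else 0) = 0
        rw [if_neg hx]
      rw [h5] at h3
      exact zero_ne_one h3
    · set N := Subgroup.normalClosure {t | t ∈ T ∧ ∃ k : ℕ, t ^ 2 ^ k = 1} with hN
      have hNn : N.Normal := Subgroup.normalClosure_normal
      rw [Subgroup.eq_top_iff']
      let W : Submodule ℝ (EuclideanSpace ℝ G) :=
        { carrier := {f | ∀ n ∈ N, reg G n f = f}
          add_mem' := fun {f h} hf hh n hn => by rw [map_add, hf n hn, hh n hn]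
          zero_mem' := fun n _ => by rw [map_zero]
          smul_mem' := fun c f hf n hn => by rw [map_smul, hf n hn] }
      have hW : ∀ g, ∀ f ∈ W, reg G g f ∈ W := fun g f hf n hn => by
        have h1 : n * g = g * (g⁻¹ * n * g) := by group
        rw [← rho_mul, h1, rho_mul, hf]
        have := hNn.conj_mem n hn g⁻¹
        rwa [inv_inv] at this
      have hinj : ∀ s ∈ prods T, ∀ f ∈ W, (reg G).asAlgebraHom s f = 0 → f = 0 := by
        intro s hs
        induction hs using Submonoid.closure_induction with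
        | mem x hx =>
          obtain ⟨t, ht, q, ⟨hq0, hq1⟩, rfl⟩ := hx
          intro f hf h0
          rw [fac_apply] at h0
          obtain ⟨k, m, hm, hkm⟩ := Nat.exists_eq_two_pow_mul_odd (orderOf_pos t).ne'
          have htm : t ^ m ∈ N := by
            apply Subgroup.subset_normalClosure
            refine ⟨hpow t ht m, k, ?_⟩
            rw [← pow_mul, mul_comm, ← hkm, pow_orderOf_eq_one]
          by_contra hf0
          have hnf : 0 < ‖f‖ := norm_pos_iff.2 hf0
          have h1 : q • reg G t f = -((1 - q) • f) := by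
            rw [eq_neg_iff_add_eq_zero, add_comm]; exact h0
          have h2 : q * ‖f‖ = (1 - q) * ‖f‖ := by
            have := congrArg norm h1
            rw [norm_smul, norm_neg, norm_smul, norm_rho reg_inner, Real.norm_of_nonneg hq0,
              Real.norm_of_nonneg (by linarith)] at this
            exact this
          have h3 : q = 1 - q := mul_right_cancel₀ hnf.ne' h2
          have h4 : reg G t f = -f := by
            have hq : q ≠ 0 := by intro h; rw [h] at h3; norm_num at h3
            rw [← h3, ← smul_neg] at h1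
            exact smul_right_injective _ hq h1
          have h5 : ∀ j : ℕ, reg G (t ^ j) f = ((-1 : ℝ) ^ j) • f := fun j => by
            induction j with
            | zero => rw [pow_zero, pow_zero, map_one, one_smul]; rfl
            | succ j ih =>
              rw [pow_succ', rho_mul, ih, map_smul, h4, pow_succ, smul_neg, ← neg_smul]
              congr 1
              ring
          have h6 := h5 m
          rw [hf _ htm, hm.neg_one_pow, neg_one_smul] at h6
          have h7 : (2 : ℝ) • f = 0 := by
            rw [two_smul]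
            nth_rewrite 1 [h6]
            exact neg_add_cancel f
          exact hf0 ((smul_eq_zero.1 h7).resolve_left two_ne_zero)
        | one => intro f _ h0; rwa [map_one] at h0
        | mul a b _ _ iha ihb =>
          intro f hf h0
          rw [map_mul, Module.End.mul_apply] at h0
          exact ihb f hf (iha _ (L_mem _ hW _ _ hf) h0)
      intro g
      set f : EuclideanSpace ℝ G := WithLp.toLp 2 fun x => if x ∈ N then (1 : ℝ) else 0 with hf
      have hfW : f ∈ W := fun n hn => by
        ext y
        show (if n⁻¹ * y ∈ N then (1 : ℝ) else 0) = if y ∈ N then 1 else 0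
        have : n⁻¹ * y ∈ N ↔ y ∈ N := N.mul_mem_cancel_left (N.inv_mem hn)
        simp only [this]
      have h1 : f - reg G g f = 0 := by
        refine hinj _ hu _ (W.sub_mem hfW (hW g f hfW)) ?_
        ext x
        rw [unif_kill]
        simp only [PiLp.sub_apply, Finset.sum_sub_distrib, reg_sum]
        simp
      have h2 : f g = reg G g f g := by
        rw [sub_eq_zero] at h1
        rw [← h1]
      rw [reg_apply, inv_mul_cancel] at h2
      by_contra hg
      have h3 : f g = 0 := by
        show (if g ∈ N then (1 : ℝ) else 0) = 0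
        rw [if_neg hg]
      have h4 : f 1 = 1 := by
        show (if (1 : G) ∈ N then (1 : ℝ) else 0) = 1
        rw [if_pos N.one_mem]
      rw [h3, h4] at h2
      exact zero_ne_one h2
  · rintro ⟨hT, hN⟩
    have hfixU : ∀ u ∈ U0 G, (∀ g, reg G g u = u) → u = 0 := fun u hu h => by
      have h1 : ∀ x, u x = u 1 := fun x => by
        have := congrArg (fun f : EuclideanSpace ℝ G => f x) (h x)
        simp only [] at this
        rw [reg_apply, inv_mul_cancel] at this
        exact this.symm
      rw [mem_U0, Finset.sum_congr rfl fun g _ => h1 g, Finset.sum_const, Finset.card_univ,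
        nsmul_eq_mul, mul_eq_zero, or_iff_right hn] at hu
      ext x
      rw [h1, hu]
      rfl
    obtain ⟨s, hs, hkill⟩ := kill (ρ := reg G) (S := prods T) reg_inner (of_mem hpow hT)
      (adj_prods reg_inner hpow) (T := {t | t ∈ T ∧ ∃ k : ℕ, t ^ 2 ^ k = 1})
      (fun t ht => ht.2)
      (fun t ht => ⟨hpow t ht.1 2, by
        obtain ⟨k, hk⟩ := ht.2
        exact ⟨k, by rw [← pow_mul, mul_comm, pow_mul, hk, one_pow]⟩⟩)
      (fun t ht p h0 h1 => fac_mem ht.1 h0 h1) hN _ (U0 G) rfl
      (fun g u hu => by rw [mem_U0] at hu ⊢; rw [reg_sum, hu]) hfixU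
    rw [← eq_unif hs hkill]
    exact hs

end Pool.Agent.H55.MX
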