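import Pool.Agent.H55.MX.Main

set_option autoImplicit false
set_option linter.unusedSectionVars false
set_option linter.style.longLine false

/-!
# Laws on three points, with values in a prescribed set
-/

namespace Pool.Agent.H55.MX

open scoped InnerProductSpace

section Rep

variable {G : Type*} [Group G] [Fintype G] {V : Type*} [NormedAddCommGroup V]
  [InnerProductSpace ℝ V] [FiniteDimensional ℝ V]
  {ρ : Representation ℝ G V} {S : Submonoid (MonoidAlgebra ℝ G)}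

/-- the symmetric law on `g`, `g⁻¹` -/
noncomputable def tau (g : G) : MonoidAlgebra ℝ G :=
  (1 / 2 : ℝ) • (MonoidAlgebra.of ℝ G g + MonoidAlgebra.of ℝ G g⁻¹)

lemma tau_apply (g : G) (v : V) :
    ρ.asAlgebraHom (tau g) v = (1 / 2 : ℝ) • (ρ g v + ρ g⁻¹ v) := by
  unfold tau
  rw [map_smul, map_add, Representation.asAlgebraHom_of, Representation.asAlgebraHom_of]
  rfl

lemma inner_inv (hρ : ∀ g (x y : V), ⟪ρ g x, ρ g y⟫_ℝ = ⟪x, y⟫_ℝ) (g : G) (x y : V) :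
    ⟪ρ g x, y⟫_ℝ = ⟪x, ρ g⁻¹ y⟫_ℝ := by
  rw [← hρ g x (ρ g⁻¹ y), rho_inv]

lemma tau_sym (hρ : ∀ g (x y : V), ⟪ρ g x, ρ g y⟫_ℝ = ⟪x, y⟫_ℝ) (g : G) (x y : V) :
    ⟪ρ.asAlgebraHom (tau g) x, y⟫_ℝ = ⟪x, ρ.asAlgebraHom (tau g) y⟫_ℝ := by
  rw [tau_apply, tau_apply, real_inner_smul_left, real_inner_smul_right, inner_add_left,
    inner_add_right, inner_inv hρ, inner_inv hρ, inv_inv]
  ring

lemma tau_inner (hρ : ∀ g (x y : V), ⟪ρ g x, ρ g y⟫_ℝ = ⟪x, y⟫_ℝ) (g : G) (x : V) :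
    ⟪ρ.asAlgebraHom (tau g) x, x⟫_ℝ = ⟪ρ g x, x⟫_ℝ := by
  rw [tau_apply, real_inner_smul_left, inner_add_left, inner_inv hρ g⁻¹, inv_inv,
    real_inner_comm (ρ g x) x]
  ring

lemma tau_norm (hρ : ∀ g (x y : V), ⟪ρ g x, ρ g y⟫_ℝ = ⟪x, y⟫_ℝ) (g : G) (x : V) :
    ‖ρ.asAlgebraHom (tau g) x‖ ≤ ‖x‖ := by
  rw [tau_apply, norm_smul]
  have h1 := norm_add_le (ρ g x) (ρ g⁻¹ x)
  rw [norm_rho hρ, norm_rho hρ] at h1
  have h2 : ‖(1 / 2 : ℝ)‖ = 1 / 2 := by norm_num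
  rw [h2]
  linarith

lemma tau_conj (g t : G) : tau (g * t * g⁻¹) =
    MonoidAlgebra.of ℝ G g * tau t * MonoidAlgebra.of ℝ G g⁻¹ := by
  unfold tau
  have e : (g * t * g⁻¹)⁻¹ = g * t⁻¹ * g⁻¹ := by group
  rw [e, mul_smul_comm, smul_mul_assoc, mul_add, add_mul, ← map_mul, ← map_mul, ← map_mul,
    ← map_mul]

lemma step3_conj (p : ℝ) (g t : G) : (1 - p) • (1 : MonoidAlgebra ℝ G) + p • tau (g * t * g⁻¹) =
    MonoidAlgebra.of ℝ G g * ((1 - p) • (1 : MonoidAlgebra ℝ G) + p • tau t) *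
      MonoidAlgebra.of ℝ G g⁻¹ := by
  rw [mul_add, add_mul, mul_smul_comm, smul_mul_assoc, mul_one, mul_smul_comm, smul_mul_assoc,
    ← map_mul, mul_inv_cancel, map_one, ← tau_conj]

lemma step3_apply (p : ℝ) (t : G) (v : V) :
    ρ.asAlgebraHom ((1 - p) • (1 : MonoidAlgebra ℝ G) + p • tau t) v =
      (1 - p) • v + p • ρ.asAlgebraHom (tau t) v := by
  rw [map_add, map_smul, map_smul, map_one]
  rfl

theorem kill_scalar3 (hρ : ∀ g (x y : V), ⟪ρ g x, ρ g y⟫_ℝ = ⟪x, y⟫_ℝ)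
    (hG : ∀ g, MonoidAlgebra.of ℝ G g ∈ S) (hadj : Adj ρ S)
    {U : Submodule ℝ V} (hU : ∀ g, ∀ u ∈ U, ρ g u ∈ U) {t : G}
    (hst : ∀ k : ℕ, ∀ p : ℝ, 0 ≤ p → p ≤ 1 →
      (1 - p) • (1 : MonoidAlgebra ℝ G) + p • tau (t ^ k) ∈ S)
    {lam : ℝ} (hC : ∀ u ∈ U, ∑ g, ρ.asAlgebraHom (tau (g * t * g⁻¹)) u = lam • u)
    (hne : ∃ u ∈ U, ρ t u ≠ u) :
    ∃ s ∈ S, ∀ u ∈ U, ρ.asAlgebraHom s u = 0 := by
  classical
  by_contra hno
  push Not at hno
  obtain ⟨s, hs, hmin⟩ := exists_min (ρ := ρ) (S := S) U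
  obtain ⟨u₁, hu₁, hu₁0⟩ := hno s hs
  have hP : ∀ k : ℕ, ∀ a ∈ S, ∀ u ∈ U,
      0 ≤ ⟪ρ (t ^ k) (ρ.asAlgebraHom (a * s) u), ρ.asAlgebraHom (a * s) u⟫_ℝ :=
    fun k a ha u hu => by
      have := psd (τ := tau (t ^ k)) hadj hU hs hmin (fun x _ y _ => tau_sym hρ _ x y)
        (hst k) ha hu
      rwa [tau_inner hρ] at this
  set T := ρ.asAlgebraHom (tau t) with hT
  -- the closed cone
  set D : Set V := {v | ∃ c : ℝ, 0 ≤ c ∧ ∃ a ∈ S, v = c • ρ.asAlgebraHom (a * s) u₁} with hD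
  set K := closure D with hK
  have hKc : IsClosed K := isClosed_closure
  have hKcone : ∀ c : ℝ, 0 ≤ c → ∀ y ∈ K, c • y ∈ K := fun c hc y hy =>
    map_mem_closure (continuous_const_smul c) hy fun z hz => by
      obtain ⟨d, hd, a, ha, rfl⟩ := hz
      exact ⟨c * d, mul_nonneg hc hd, a, ha, by rw [smul_smul]⟩
  have hKL : ∀ b ∈ S, ∀ y ∈ K, ρ.asAlgebraHom b y ∈ K := fun b hb y hy =>
    map_mem_closure (ρ.asAlgebraHom b).continuous_of_finiteDimensional hy fun z hz => by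
      obtain ⟨d, hd, a, ha, rfl⟩ := hz
      exact ⟨d, hd, b * a, S.mul_mem hb ha, by
        rw [map_smul, mul_assoc b a s, map_mul _ b (a * s), Module.End.mul_apply]⟩
  have hKU : ∀ y ∈ K, y ∈ U := by
    have hUc : IsClosed (U : Set V) := U.closed_of_finiteDimensional
    have : K ⊆ (U : Set V) := closure_minimal (fun z hz => by
      obtain ⟨d, hd, a, ha, rfl⟩ := hz
      exact U.smul_mem d (L_mem ρ hU _ _ hu₁)) hUc
    exact this
  have hKP : ∀ k : ℕ, ∀ y ∈ K, 0 ≤ ⟪ρ (t ^ k) y, y⟫_ℝ := by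
    intro k
    have hc : IsClosed {y : V | 0 ≤ ⟪ρ (t ^ k) y, y⟫_ℝ} :=
      isClosed_le continuous_const
        ((ρ (t ^ k)).continuous_of_finiteDimensional.inner continuous_id)
    have : K ⊆ {y : V | 0 ≤ ⟪ρ (t ^ k) y, y⟫_ℝ} := closure_minimal (fun z hz => by
      obtain ⟨d, hd, a, ha, rfl⟩ := hz
      show 0 ≤ ⟪ρ (t ^ k) _, _⟫_ℝ
      rw [map_smul, real_inner_smul_left, real_inner_smul_right]
      exact mul_nonneg hd (mul_nonneg hd (hP k a ha u₁ hu₁))) hc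
    exact this
  have hKne : ∃ y ∈ K, y ≠ 0 := by
    refine ⟨ρ.asAlgebraHom s u₁, subset_closure ⟨1, zero_le_one, 1, S.one_mem, ?_⟩, hu₁0⟩
    rw [one_mul, one_smul]
  obtain ⟨y, hyK, hy1, hymin⟩ := cone_min K hKc hKcone hKne T
  set m := ⟪T y, y⟫_ℝ with hm
  have hmt : m = ⟪ρ t y, y⟫_ℝ := by rw [hm, hT, tau_inner hρ]
  have hm0 : 0 ≤ m := by
    have := hKP 1 y hyK
    rw [pow_one] at this
    rw [hmt]; exact this
  have hyU := hKU y hyK
  set z : G → V := fun g => ρ.asAlgebraHom (tau (g * t * g⁻¹)) y with hz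
  have hstepK : ∀ g, ∀ e : ℝ, 0 ≤ e → y + e • z g ∈ K := fun g e he => by
    have he1 : (1 + e) ≠ 0 := by positivity
    have h1 : (1 - e / (1 + e)) • (1 : MonoidAlgebra ℝ G) + (e / (1 + e)) • tau (g * t * g⁻¹) ∈ S := by
      rw [step3_conj]
      have h0 := hst 1 (e / (1 + e)) (by positivity) (by
        rw [div_le_one (by positivity)]
        linarith)
      rw [pow_one] at h0
      exact S.mul_mem (S.mul_mem (hG g) h0) (hG _)
    have h2 := hKcone (1 + e) (by positivity) _ (hKL _ h1 y hyK)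
    rw [step3_apply] at h2
    have h3 : (1 + e) • ((1 - e / (1 + e)) • y +
        (e / (1 + e)) • ρ.asAlgebraHom (tau (g * t * g⁻¹)) y) = y + e • z g := by
      have e1 : (1 + e) * (1 - e / (1 + e)) = 1 := by field_simp; ring
      have e2 : (1 + e) * (e / (1 + e)) = e := by field_simp
      rw [smul_add, smul_smul, smul_smul, e1, e2, one_smul]
    rw [h3] at h2
    exact h2
  have hfo : ∀ g, m * ⟪y, z g⟫_ℝ ≤ ⟪T y, z g⟫_ℝ := fun g =>
    first_order T (tau_sym hρ _ _ _) (by rw [hy1]; ring)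
      fun e he => hymin _ (hstepK g e he)
  have hsum : ∑ g, (⟪T y, z g⟫_ℝ - m * ⟪y, z g⟫_ℝ) = 0 := by
    rw [Finset.sum_sub_distrib, ← Finset.mul_sum, ← inner_sum, ← inner_sum, hz]
    simp only []
    rw [hC y hyU, real_inner_smul_right, real_inner_smul_right, ← hm,
      real_inner_self_eq_norm_sq, hy1]
    ring
  have hall := (Finset.sum_eq_zero_iff_of_nonneg (fun g _ => sub_nonneg.2 (hfo g))).1 hsum
  have h1 := hall 1 (Finset.mem_univ _)
  have hz1 : z 1 = T y := by rw [hz, hT]; simp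
  rw [hz1, real_inner_comm (T y) y, ← hm, real_inner_self_eq_norm_sq] at h1
  -- `T y = m y`
  have hTy : T y = m • y := by
    have h2 : ‖T y - m • y‖ ^ 2 = 0 := by
      rw [norm_sub_sq_real, real_inner_smul_right, ← hm, norm_smul, hy1, Real.norm_of_nonneg hm0]
      linarith
    have h3 : ‖T y - m • y‖ = 0 := by simpa using h2
    exact sub_eq_zero.1 (norm_eq_zero.1 h3)
  have hty : ρ t (ρ t y) = (2 * m) • ρ t y - y := by
    have h2 : ρ t (T y) = m • ρ t y := by rw [hTy, map_smul]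
    rw [hT, tau_apply, map_smul, map_add, rho_inv] at h2
    have h3 : ρ t (ρ t y) + y = (2 * m) • ρ t y := by
      have h4 := congrArg (fun v => (2 : ℝ) • v) h2
      simp only [smul_smul] at h4
      rw [show (2 : ℝ) * (1 / 2) = 1 by norm_num, one_smul] at h4
      exact h4
    rw [← h3]
    abel
  have hm1 : m = 1 := by
    by_contra hne1
    -- the sum over the powers of `t` of `y` vanishes
    set n := orderOf t with hn
    have hnpos : 0 < n := orderOf_pos t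
    set w : V := ∑ k ∈ Finset.range n, ρ (t ^ k) y with hw
    have hrec : ∀ k : ℕ, ρ (t ^ (k + 2)) y = (2 * m) • ρ (t ^ (k + 1)) y - ρ (t ^ k) y :=
      fun k => by
        rw [pow_add t k 2, pow_add t k 1, rho_mul, rho_mul, pow_two, rho_mul, hty, map_sub,
          map_smul, pow_one]
    have hshift : ρ t w = w := by
      have h2 : ρ t w = ∑ k ∈ Finset.range n, ρ (t ^ (k + 1)) y := by
        rw [hw, map_sum]
        exact Finset.sum_congr rfl fun k _ => by rw [pow_succ', rho_mul]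
      have h3 := Finset.sum_range_succ (fun k => ρ (t ^ k) y) n
      have h4 := Finset.sum_range_succ' (fun k => ρ (t ^ k) y) n
      rw [h3] at h4
      rw [hn, pow_orderOf_eq_one, ← hn, pow_zero] at h4
      rw [h2, hw]
      exact (add_right_cancel h4).symm
    have h5 : (2 - 2 * m) • w = 0 := by
      have h6 : ρ t (ρ t w) = (2 * m) • ρ t w - w := by
        rw [hw, map_sum, map_sum, Finset.smul_sum, ← Finset.sum_sub_distrib]
        refine Finset.sum_congr rfl fun k _ => ?_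
        have h7 := hrec k
        have e1 : ρ t (ρ t (ρ (t ^ k) y)) = ρ (t ^ (k + 2)) y := by
          rw [← rho_mul, ← rho_mul]
          congr 2
          rw [pow_succ' t (k + 1), pow_succ' t k, mul_assoc]
        have e2 : ρ t (ρ (t ^ k) y) = ρ (t ^ (k + 1)) y := by
          rw [← rho_mul, ← pow_succ']
        rw [e1, e2]
        exact h7
      rw [hshift, hshift] at h6
      have h7 : (2 - 2 * m) • w = w - ((2 * m) • w - w) := by
        rw [sub_smul, two_smul]; abel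
      rw [h7, ← h6, sub_self]
    have hw0 : w = 0 := by
      rcases smul_eq_zero.1 h5 with h | h
      · exact absurd (by linarith) hne1
      · exact h
    have h6 : ⟪w, y⟫_ℝ = 0 := by rw [hw0, inner_zero_left]
    rw [hw, sum_inner] at h6
    have h7 := (Finset.sum_eq_zero_iff_of_nonneg (fun k _ => hKP k y hyK)).1 h6 0
      (Finset.mem_range.2 hnpos)
    rw [pow_zero, map_one, Module.End.one_apply, real_inner_self_eq_norm_sq, hy1] at h7
    norm_num at h7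
  -- every conjugate fixes `y`, so the scalar is `|G|`
  have h2 : ∀ g, 1 ≤ ⟪z g, y⟫_ℝ := fun g => by
    have h3 := hKL _ (hG g⁻¹) y hyK
    rw [Representation.asAlgebraHom_of] at h3
    have h4 := hymin _ h3
    rw [norm_rho hρ, hy1, hm1, hT, tau_inner hρ] at h4
    have h5 : ⟪z g, y⟫_ℝ = ⟪ρ t (ρ g⁻¹ y), ρ g⁻¹ y⟫_ℝ := by
      rw [hz]
      simp only []
      rw [tau_inner hρ, ← hρ g (ρ t (ρ g⁻¹ y)) (ρ g⁻¹ y), rho_inv, rho_mul, rho_mul]
    rw [h5]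
    linarith
  have h3 : (Fintype.card G : ℝ) ≤ lam := by
    have h4 : ∑ g : G, (1 : ℝ) ≤ ∑ g, ⟪z g, y⟫_ℝ := Finset.sum_le_sum fun g _ => h2 g
    rw [← sum_inner, hz] at h4
    simp only [] at h4
    rw [hC y hyU, real_inner_smul_left, real_inner_self_eq_norm_sq, hy1] at h4
    simpa using h4
  obtain ⟨u, hu, hu0⟩ := hne
  apply hu0
  have h4 : ∀ g ∈ (Finset.univ : Finset G),
      0 ≤ ‖u‖ ^ 2 - ⟪ρ.asAlgebraHom (tau (g * t * g⁻¹)) u, u⟫_ℝ :=
    fun g _ => by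
      have h5 := real_inner_le_norm (ρ.asAlgebraHom (tau (g * t * g⁻¹)) u) u
      have h6 := tau_norm hρ (g * t * g⁻¹) u
      nlinarith [norm_nonneg u]
  have h5 : ∑ g : G, (‖u‖ ^ 2 - ⟪ρ.asAlgebraHom (tau (g * t * g⁻¹)) u, u⟫_ℝ) = 0 := by
    apply le_antisymm _ (Finset.sum_nonneg h4)
    rw [Finset.sum_sub_distrib, ← sum_inner, hC u hu, real_inner_smul_left,
      real_inner_self_eq_norm_sq, Finset.sum_const, Finset.card_univ, nsmul_eq_mul]
    nlinarith [sq_nonneg ‖u‖]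
  have h6 := (Finset.sum_eq_zero_iff_of_nonneg h4).1 h5 1 (Finset.mem_univ _)
  rw [one_mul, inv_one, mul_one, tau_inner hρ] at h6
  have h7 : ‖ρ t u - u‖ ^ 2 = 0 := by
    rw [norm_sub_sq_real, norm_rho hρ]
    linarith
  have h8 : ‖ρ t u - u‖ = 0 := by simpa using h7
  exact sub_eq_zero.1 (norm_eq_zero.1 h8)

/-- the symmetrized sum of the conjugates -/
noncomputable def csum3 (ρ : Representation ℝ G V) (t : G) : V →ₗ[ℝ] V :=
  ∑ g, ρ.asAlgebraHom (tau (g * t * g⁻¹))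

lemma csum3_apply (ρ : Representation ℝ G V) (t : G) (v : V) :
    csum3 ρ t v = ∑ g, ρ.asAlgebraHom (tau (g * t * g⁻¹)) v := by
  rw [csum3, LinearMap.sum_apply]

lemma tau_comm (g t h : G) : tau (g * t * g⁻¹) * MonoidAlgebra.of ℝ G h =
    MonoidAlgebra.of ℝ G h * tau (h⁻¹ * g * t * (h⁻¹ * g)⁻¹) := by
  have e : h⁻¹ * g * t * (h⁻¹ * g)⁻¹ = h⁻¹ * (g * t * g⁻¹) * h⁻¹⁻¹ := by group
  rw [e, tau_conj h⁻¹ (g * t * g⁻¹), ← mul_assoc, ← mul_assoc, ← map_mul, mul_inv_cancel, map_one,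
    one_mul, inv_inv]

lemma csum3_comm (ρ : Representation ℝ G V) (t h : G) (v : V) :
    csum3 ρ t (ρ h v) = ρ h (csum3 ρ t v) := by
  rw [csum3_apply, csum3_apply, map_sum]
  refine Fintype.sum_equiv (Equiv.mulLeft h⁻¹) _ _ fun g => ?_
  have h1 : ρ.asAlgebraHom (tau (g * t * g⁻¹)) (ρ h v) =
      ρ.asAlgebraHom (tau (g * t * g⁻¹) * MonoidAlgebra.of ℝ G h) v := by
    rw [map_mul, Module.End.mul_apply, Representation.asAlgebraHom_of]
  have h2 : ρ h (ρ.asAlgebraHom (tau (h⁻¹ * g * t * (h⁻¹ * g)⁻¹)) v) =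
      ρ.asAlgebraHom (MonoidAlgebra.of ℝ G h * tau (h⁻¹ * g * t * (h⁻¹ * g)⁻¹)) v := by
    rw [map_mul, Module.End.mul_apply, Representation.asAlgebraHom_of]
  rw [h1, tau_comm]
  exact h2.symm

theorem kill3 (hρ : ∀ g (x y : V), ⟪ρ g x, ρ g y⟫_ℝ = ⟪x, y⟫_ℝ)
    (hG : ∀ g, MonoidAlgebra.of ℝ G g ∈ S) (hadj : Adj ρ S) {T : Set G}
    (hst : ∀ t ∈ T, ∀ k : ℕ, ∀ p : ℝ, 0 ≤ p → p ≤ 1 →
      (1 - p) • (1 : MonoidAlgebra ℝ G) + p • tau (t ^ k) ∈ S)
    (hN : Subgroup.closure T = ⊤) (n : ℕ) :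
    ∀ U : Submodule ℝ V, Module.finrank ℝ U = n → (∀ g, ∀ u ∈ U, ρ g u ∈ U) →
      (∀ u ∈ U, (∀ g, ρ g u = u) → u = 0) → ∃ s ∈ S, ∀ u ∈ U, ρ.asAlgebraHom s u = 0 := by
  classical
  induction n using Nat.strong_induction_on with
  | _ n ih =>
  intro U hUn hU hfix
  by_cases hbot : U = ⊥
  · refine ⟨1, S.one_mem, fun u hu => ?_⟩
    rw [hbot, Submodule.mem_bot] at hu
    rw [hu, map_zero]
  -- an element of `T` acting nontrivially
  obtain ⟨t, htT, hne⟩ : ∃ t ∈ T, ∃ u ∈ U, ρ t u ≠ u := by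
    by_contra hcon
    push Not at hcon
    apply hbot
    rw [Submodule.eq_bot_iff]
    intro u hu
    let N : Subgroup G :=
      { carrier := {g | ∀ u ∈ U, ρ g u = u}
        mul_mem' := fun {a b} ha hb u hu => by rw [rho_mul, hb u hu, ha u hu]
        one_mem' := fun u _ => by rw [map_one, Module.End.one_apply]
        inv_mem' := fun {a} ha u hu => by
          have h1 := rho_inv ρ a⁻¹ u
          rw [inv_inv, ha u hu] at h1
          exact h1 }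
    have hle : Subgroup.closure T ≤ N := (Subgroup.closure_le N).2 fun t ht => fun u hu => hcon t ht u hu
    exact hfix u hu fun g => (hle (hN ▸ Subgroup.mem_top g) : g ∈ N) u hu
  by_cases hsc : ∃ lam : ℝ, ∀ u ∈ U, csum3 ρ t u = lam • u
  · obtain ⟨lam, hlam⟩ := hsc
    exact kill_scalar3 hρ hG hadj hU (hst t htT)
      (fun u hu => by rw [← csum3_apply]; exact hlam u hu) hne
  -- otherwise split `U`
  push Not at hsc
  have hCU : ∀ u ∈ U, csum3 ρ t u ∈ U := fun u hu => by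
    rw [csum3_apply]
    exact U.sum_mem fun g _ => L_mem ρ hU _ _ hu
  have hsym : ∀ x ∈ U, ∀ y ∈ U, ⟪csum3 ρ t x, y⟫_ℝ = ⟪x, csum3 ρ t y⟫_ℝ := fun x hx y hy => by
    rw [csum3_apply, csum3_apply, sum_inner, inner_sum]
    exact Finset.sum_congr rfl fun g _ => tau_sym hρ _ _ _
  have : Nontrivial U := Submodule.nontrivial_iff_ne_bot.2 hbot
  set CU : U →ₗ[ℝ] U := (csum3 ρ t).restrict hCU with hCUdef
  have hCUs : CU.IsSymmetric := fun x y => hsym x x.2 y y.2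
  obtain ⟨lam, hlam⟩ : ∃ lam : ℝ, Module.End.HasEigenvalue CU lam :=
    ⟨_, hCUs.hasEigenvalue_iSup_of_finiteDimensional⟩
  obtain ⟨v', hv'⟩ := hlam.exists_hasEigenvector
  obtain ⟨v, hv, hv0, hvl⟩ : ∃ v : V, v ∈ U ∧ v ≠ 0 ∧ csum3 ρ t v = lam • v :=
    ⟨(v' : V), v'.2, fun h => hv'.2 (Subtype.ext h), congrArg Subtype.val hv'.apply_eq_smul⟩
  let U₁ : Submodule ℝ V := U ⊓ LinearMap.ker (csum3 ρ t - lam • LinearMap.id)
  have hU₁ : ∀ u, u ∈ U₁ ↔ u ∈ U ∧ csum3 ρ t u = lam • u := fun u => by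
    rw [Submodule.mem_inf, LinearMap.mem_ker, LinearMap.sub_apply, LinearMap.smul_apply,
      LinearMap.id_apply, sub_eq_zero]
  let U₂ : Submodule ℝ V := U ⊓ U₁ᗮ
  have hle₁ : U₁ < U := by
    refine lt_of_le_of_ne inf_le_left fun h => ?_
    obtain ⟨u, hu, hu0⟩ := hsc lam
    exact hu0 ((hU₁ u).1 (h ▸ hu)).2
  have hle₂ : U₂ < U := by
    refine lt_of_le_of_ne inf_le_left fun h => ?_
    have h1 : v ∈ U₂ := h ▸ hv
    have h2 : v ∈ U₁ := (hU₁ v).2 ⟨hv, hvl⟩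
    exact hv0 ((inner_self_eq_zero (𝕜 := ℝ)).1 ((Submodule.mem_orthogonal _ _).1 h1.2 v h2))
  have hinv₁ : ∀ g, ∀ u ∈ U₁, ρ g u ∈ U₁ := fun g u hu => by
    rw [hU₁] at hu ⊢
    exact ⟨hU g u hu.1, by rw [csum3_comm, hu.2, map_smul]⟩
  have hinv₂ : ∀ g, ∀ u ∈ U₂, ρ g u ∈ U₂ := fun g u hu => by
    refine ⟨hU g u hu.1, (Submodule.mem_orthogonal _ _).2 fun w hw => ?_⟩
    have h1 := (Submodule.mem_orthogonal _ _).1 hu.2 (ρ g⁻¹ w) (hinv₁ _ _ hw)
    rwa [← hρ g, rho_inv] at h1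
  obtain ⟨s₁, hs₁, h₁⟩ := ih _ (hUn ▸ Submodule.finrank_lt_finrank_of_lt hle₁) U₁ rfl hinv₁
    fun u hu => hfix u hu.1
  obtain ⟨s₂, hs₂, h₂⟩ := ih _ (hUn ▸ Submodule.finrank_lt_finrank_of_lt hle₂) U₂ rfl hinv₂
    fun u hu => hfix u hu.1
  refine ⟨s₁ * s₂, S.mul_mem hs₁ hs₂, fun u hu => ?_⟩
  obtain ⟨x, hx, z, hz, hxz⟩ := U₁.exists_add_mem_mem_orthogonal u
  have hzU : z ∈ U := by
    have : z = u - x := by rw [hxz]; abel
    rw [this]
    exact U.sub_mem hu hx.1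
  rw [hxz, map_add, map_mul, Module.End.mul_apply, Module.End.mul_apply, h₂ z ⟨hzU, hz⟩, map_zero,
    add_zero]
  exact h₁ _ (L_mem ρ hinv₁ _ _ hx)

end Rep

end Pool.Agent.H55.MX
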