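import Pool.Agent.H55.MX.Three

set_option autoImplicit false
set_option linter.unusedSectionVars false
set_option linter.style.longLine false

/-!
# Laws on three points `1, t, t⁻¹` with `t` in a prescribed set; sets of involutions
-/

namespace Pool.Agent.H55.MX

open scoped InnerProductSpace

variable {G : Type*} [Group G] [Fintype G]

/-- the laws on `1, t, t⁻¹`, `t ∈ T` -/
def steps3 (T : Set G) : Set (MonoidAlgebra ℝ G) :=
  {x | ∃ t ∈ T, ∃ a b c : ℝ, 0 ≤ a ∧ 0 ≤ b ∧ 0 ≤ c ∧ a + b + c = 1 ∧
    x = a • 1 + b • MonoidAlgebra.of ℝ G t + c • MonoidAlgebra.of ℝ G t⁻¹}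

/-- the products of laws on `1, t, t⁻¹` -/
noncomputable def prods3 (T : Set G) : Submonoid (MonoidAlgebra ℝ G) :=
  Submonoid.closure (steps3 T)

lemma law_apply {V : Type*} [NormedAddCommGroup V] [InnerProductSpace ℝ V]
    {ρ : Representation ℝ G V} (a b c : ℝ) (t : G) (v : V) :
    ρ.asAlgebraHom (a • 1 + b • MonoidAlgebra.of ℝ G t + c • MonoidAlgebra.of ℝ G t⁻¹) v =
      a • v + b • ρ t v + c • ρ t⁻¹ v := by
  rw [map_add, map_add, map_smul, map_smul, map_smul, map_one, Representation.asAlgebraHom_of,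
    Representation.asAlgebraHom_of]
  rfl

lemma of_mem3 {T : Set G} (hT : Subgroup.closure T = ⊤)
    (g : G) : MonoidAlgebra.of ℝ G g ∈ prods3 T := by
  let N : Subgroup G :=
    { carrier := {g | MonoidAlgebra.of ℝ G g ∈ prods3 T ∧ MonoidAlgebra.of ℝ G g⁻¹ ∈ prods3 T}
      mul_mem' := fun {a b} ha hb => by
        refine ⟨?_, ?_⟩
        · rw [map_mul]; exact Submonoid.mul_mem _ ha.1 hb.1
        · rw [mul_inv_rev, map_mul]; exact Submonoid.mul_mem _ hb.2 ha.2
      one_mem' := ⟨by rw [map_one]; exact Submonoid.one_mem _,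
        by rw [inv_one, map_one]; exact Submonoid.one_mem _⟩
      inv_mem' := fun {a} ha => ⟨ha.2, by rw [inv_inv]; exact ha.1⟩ }
  have hle : Subgroup.closure T ≤ N := (Subgroup.closure_le N).2 fun t ht => by
    refine ⟨?_, ?_⟩
    · refine Submonoid.subset_closure ⟨t, ht, 0, 1, 0, le_rfl, zero_le_one, le_rfl, by norm_num, ?_⟩
      simp
    · refine Submonoid.subset_closure ⟨t, ht, 0, 0, 1, le_rfl, le_rfl, zero_le_one, by norm_num, ?_⟩
      simp
  exact (hle (hT ▸ Subgroup.mem_top g) : g ∈ N).1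

lemma adj_prods3 {V : Type*} [NormedAddCommGroup V] [InnerProductSpace ℝ V]
    {ρ : Representation ℝ G V} (hρ : ∀ g (x y : V), ⟪ρ g x, ρ g y⟫_ℝ = ⟪x, y⟫_ℝ) (T : Set G) :
    Adj ρ (prods3 T) := by
  have hinv : ∀ (g : G) (x y : V), ⟪ρ g x, y⟫_ℝ = ⟪x, ρ g⁻¹ y⟫_ℝ := fun g x y => by
    rw [← hρ g x (ρ g⁻¹ y)]
    congr 1
    rw [← Module.End.mul_apply, ← map_mul, mul_inv_cancel, map_one, Module.End.one_apply]
  intro a ha
  induction ha using Submonoid.closure_induction with
  | mem x hx =>
    obtain ⟨t, ht, a, b, c, ha, hb, hc, habc, rfl⟩ := hx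
    refine ⟨a • 1 + c • MonoidAlgebra.of ℝ G t + b • MonoidAlgebra.of ℝ G t⁻¹,
      Submonoid.subset_closure ⟨t, ht, a, c, b, ha, hc, hb, by linarith, rfl⟩, fun x y => ?_⟩
    rw [law_apply, law_apply, inner_add_left, inner_add_left, inner_add_right, inner_add_right,
      real_inner_smul_left, real_inner_smul_left, real_inner_smul_left, real_inner_smul_right,
      real_inner_smul_right, real_inner_smul_right, hinv t, hinv t⁻¹, inv_inv]
    ring
  | one => exact ⟨1, Submonoid.one_mem _, fun x y => by rw [map_one]; rfl⟩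
  | mul a b _ _ iha ihb =>
    obtain ⟨a', ha', h1⟩ := iha
    obtain ⟨b', hb', h2⟩ := ihb
    refine ⟨b' * a', Submonoid.mul_mem _ hb' ha', fun x y => ?_⟩
    rw [map_mul, map_mul, Module.End.mul_apply, Module.End.mul_apply, h1, h2]

lemma fixed_prods3 {T : Set G} {f : EuclideanSpace ℝ G} (hf : ∀ t ∈ T, reg G t f = f)
    {s : MonoidAlgebra ℝ G} (hs : s ∈ prods3 T) : (reg G).asAlgebraHom s f = f := by
  induction hs using Submonoid.closure_induction with
  | mem x hx =>
    obtain ⟨t, ht, a, b, c, ha, hb, hc, habc, rfl⟩ := hx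
    have h1 : reg G t⁻¹ f = f := by
      conv_lhs => rw [← hf t ht]
      rw [← Module.End.mul_apply, ← map_mul, inv_mul_cancel, map_one, Module.End.one_apply]
    rw [law_apply, hf t ht, h1, ← add_smul, ← add_smul, habc, one_smul]
  | one => rw [map_one]; rfl
  | mul a b _ _ iha ihb => rw [map_mul, Module.End.mul_apply, ihb, iha]

lemma eq_unif3 {T : Set G} {s : MonoidAlgebra ℝ G} (hs : s ∈ prods3 T)
    (h : ∀ f ∈ U0 G, (reg G).asAlgebraHom s f = 0) : s = unif G := by
  classical
  have h1 : ∀ x, s.coeff x = s.coeff 1 := fun x => by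
    have h2 : EuclideanSpace.single (1 : G) (1 : ℝ) - EuclideanSpace.single x 1 ∈ U0 G := by
      rw [mem_U0]
      simp
    have h3 := congrArg (fun f : EuclideanSpace ℝ G => f x) (h _ h2)
    simp only [] at h3
    rw [alg_apply] at h3
    have h4 : ∀ g : G, s.coeff g * (EuclideanSpace.single (1 : G) (1 : ℝ) -
        EuclideanSpace.single x 1 : EuclideanSpace ℝ G) (g⁻¹ * x) =
        (if g = x then s.coeff g else 0) - (if g = 1 then s.coeff g else 0) := fun g => by
      rw [PiLp.sub_apply, PiLp.single_apply, PiLp.single_apply, mul_sub]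
      have e1 : (g⁻¹ * x = 1) ↔ g = x := by rw [inv_mul_eq_one]
      have e2 : (g⁻¹ * x = x) ↔ g = 1 := by simp
      simp only [e1, e2, mul_ite, mul_one, mul_zero]
    rw [Finset.sum_congr rfl fun g _ => h4 g, Finset.sum_sub_distrib,
      Finset.sum_ite_eq' Finset.univ x, Finset.sum_ite_eq' Finset.univ (1 : G)] at h3
    simp only [Finset.mem_univ, if_true] at h3
    have h5 : (0 : EuclideanSpace ℝ G) x = 0 := rfl
    rw [h5] at h3
    linarith
  have h2 : ∑ g, s.coeff g = 1 := by
    set e : EuclideanSpace ℝ G := WithLp.toLp 2 fun _ => (1 : ℝ) with he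
    have h3 := fixed_prods3 (f := e) (fun t _ => by ext x; rfl) hs
    have h4 := congrArg (fun f : EuclideanSpace ℝ G => f 1) h3
    simp only [] at h4
    rw [alg_apply] at h4
    simpa [he] using h4
  have hn : (Fintype.card G : ℝ) ≠ 0 := Nat.cast_ne_zero.2 Fintype.card_ne_zero
  have h3 : s.coeff 1 = (Fintype.card G : ℝ)⁻¹ := by
    rw [Finset.sum_congr rfl fun g _ => h1 g, Finset.sum_const, Finset.card_univ,
      nsmul_eq_mul] at h2
    field_simp
    linarith
  ext x
  rw [h1, h3, unif_apply]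

/-- **Three-point laws from a prescribed set.** Let `T` be closed under powers. The uniform law is a
product of laws on `1, t, t⁻¹`, `t ∈ T`, if and only if `T` generates `G`. -/
theorem three_iff (T : Set G) (hpow : ∀ t ∈ T, ∀ k : ℕ, t ^ k ∈ T) :
    unif G ∈ prods3 T ↔ Subgroup.closure T = ⊤ := by
  classical
  have hn : (Fintype.card G : ℝ) ≠ 0 := Nat.cast_ne_zero.2 Fintype.card_ne_zero
  constructor
  · intro hu
    rw [Subgroup.eq_top_iff']
    set H := Subgroup.closure T
    intro x
    set f : EuclideanSpace ℝ G := WithLp.toLp 2 fun x => if x ∈ H then (1 : ℝ) else 0 with hf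
    have h1 : ∀ t ∈ T, reg G t f = f := fun t ht => by
      ext y
      show (if t⁻¹ * y ∈ H then (1 : ℝ) else 0) = if y ∈ H then 1 else 0
      have : t⁻¹ * y ∈ H ↔ y ∈ H :=
        H.mul_mem_cancel_left (H.inv_mem (Subgroup.subset_closure ht))
      simp only [this]
    have h2 := fixed_prods3 h1 hu
    have h3 : f x = f 1 := by
      conv_lhs => rw [← h2]
      conv_rhs => rw [← h2]
      rw [unif_kill, unif_kill]
    have h4 : f 1 = 1 := by
      show (if (1 : G) ∈ H then (1 : ℝ) else 0) = 1
      rw [if_pos H.one_mem]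
    rw [h4] at h3
    by_contra hx
    have h5 : f x = 0 := by
      show (if x ∈ H then (1 : ℝ) else 0) = 0
      rw [if_neg hx]
    rw [h5] at h3
    exact zero_ne_one h3
  · intro hT
    have hfixU : ∀ u ∈ U0 G, (∀ g, reg G g u = u) → u = 0 := fun u hu h => by
      have h1 : ∀ x, u x = u 1 := fun x => by
        have := congrArg (fun f : EuclideanSpace ℝ G => f x) (h x)
        simp only [] at this
        rw [reg_apply, inv_mul_cancel] at this
        exact this.symm
      rw [mem_U0, Finset.sum_congr rfl fun g _ => h1 g, Finset.sum_const, Finset.card_univ,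
        nsmul_eq_mul, mul_eq_zero, or_iff_right hn] at hu
      ext x
      rw [h1, hu]
      rfl
    obtain ⟨s, hs, hkill⟩ := kill3 (ρ := reg G) (S := prods3 T) reg_inner (of_mem3 hT)
      (adj_prods3 reg_inner T) (T := T)
      (fun t ht k p h0 h1 => Submonoid.subset_closure
        ⟨t ^ k, hpow t ht k, 1 - p, p / 2, p / 2, by linarith, by linarith, by linarith,
          by ring, by
            unfold tau
            rw [smul_smul, smul_add, ← add_assoc, mul_one_div]⟩) hT _ (U0 G) rfl
      (fun g u hu => by rw [mem_U0] at hu ⊢; rw [reg_sum, hu]) hfixU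
    rw [← eq_unif3 hs hkill]
    exact hs

lemma prods_insert_one (T : Set G) : prods (insert 1 T) = prods T := by
  apply le_antisymm
  · unfold prods
    rw [Submonoid.closure_le]
    rintro x ⟨t, ht, q, hq, rfl⟩
    rcases ht with rfl | ht
    · have : fac q (1 : G) = 1 := by
        unfold fac
        rw [map_one, ← add_smul]
        simp
      rw [this]
      exact Submonoid.one_mem _
    · exact Submonoid.subset_closure ⟨t, ht, q, hq, rfl⟩
  · exact Submonoid.closure_mono fun x ⟨t, ht, q, hq, hx⟩ => ⟨t, Or.inr ht, q, hq, hx⟩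

/-- **Sets of involutions.** If `t ^ 2 = 1` for all `t ∈ T` then the uniform law is a product of
lazy steps from `T` if and only if `T` generates `G`. -/
theorem involutions_iff (T : Set G) (h2 : ∀ t ∈ T, t ^ 2 = 1) :
    unif G ∈ prods T ↔ Subgroup.closure T = ⊤ := by
  have hpow : ∀ t ∈ insert 1 T, ∀ k : ℕ, t ^ k ∈ insert 1 T := by
    intro t ht k
    rcases ht with rfl | ht
    · rw [one_pow]; exact Set.mem_insert _ _
    · obtain ⟨j, rfl | rfl⟩ := Nat.even_or_odd' k
      · rw [pow_mul, h2 t ht, one_pow]; exact Set.mem_insert _ _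
      · rw [pow_succ, pow_mul, h2 t ht, one_pow, one_mul]; exact Set.mem_insert_of_mem _ ht
  rw [← prods_insert_one, uniform_iff _ hpow]
  have e : Subgroup.closure (insert 1 T) = Subgroup.closure T := Subgroup.closure_insert_one T
  rw [e]
  constructor
  · exact fun h => h.1
  · intro h
    refine ⟨h, ?_⟩
    rw [eq_top_iff, ← h, ← e]
    refine (Subgroup.closure_le _).2 fun t ht => Subgroup.subset_normalClosure ⟨ht, 1, ?_⟩
    rw [pow_one]
    rcases ht with rfl | ht
    · exact one_pow _
    · exact h2 t ht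

end Pool.Agent.H55.MX
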